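import Pool.Agent.Helper3.SFP.Soft

namespace Pool.Agent.Helper3.SFP
open Filter MeasureTheory Set ProbabilityTheory
open scoped Topology ENNReal

variable {d : ℕ} {α lam : ℝ} {Ω : Type*} {mΩ : MeasurableSpace Ω} {P : Measure Ω}
  [IsProbabilityMeasure P]
  {W : (Fin d → ℤ) → Ω → ℝ} {U L : Sym2 (Fin d → ℤ) → Ω → ℝ} {μW μL : Measure ℝ}

variable (Sc : Scales d α lam (fun t => μW.real (Ici t)) (cdf μL))

theorem exists_dir {R : ℕ} {v : Fin d → ℤ} (hv : v ∉ box d R) :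
    ∃ (a : ℤˣ × Fin d), (R : ℤ) < a.1 * v a.2 := by
  simp only [box, Set.mem_ofPred_eq, not_forall, not_le] at hv
  obtain ⟨i, hi⟩ := hv
  rcases lt_abs.1 hi with h | h
  · exact ⟨(1, i), by simpa using h⟩
  · exact ⟨(-1, i), by simpa using h⟩

theorem all_directions (hF : Fam P W U L μW μL) {R : ℕ} {x : Fin d → ℤ}
    {t ε' : ℝ≥0∞} {c : ℝ≥0∞} (hW1 : ∀ᵐ ω ∂P, ∀ v, 1 ≤ W v ω)
    (hB : ∀ (σ : ℤˣ) (i : Fin d) (v : Fin d → ℤ), ∃ B : Set Ω,
      MeasurableSet[sig (coords W U L)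
        (idxIn {z | (σ : ℤ) * v i < (σ : ℤ) * z i} {z | (σ : ℤ) * v i ≤ (σ : ℤ) * z i})] B ∧
      c ≤ P B ∧ ∀ ω ∈ B, 1 ≤ W v ω → ReachTo Sc W U L ω v ε')
    {A : Set Ω} (hA : MeasurableSet[sig (coords W U L) (idxIn (box d R) (box d R))] A) :
    c * P (A ∩ ⋃ v ∈ (box d R)ᶜ, exitEvent α lam W U L R x t v) ≤
      Fintype.card (ℤˣ × Fin d) * P (A ∩ {ω | ReachTo Sc W U L ω x (t + ε')}) := by
  have hsub : A ∩ ⋃ v ∈ (box d R)ᶜ, exitEvent α lam W U L R x t v ⊆
      ⋃ a : ℤˣ × Fin d, A ∩ ⋃ v ∈ {v : Fin d → ℤ | (R : ℤ) < a.1 * v a.2},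
        exitEvent α lam W U L R x t v := by
    rintro ω ⟨hωA, hω⟩
    obtain ⟨v, hv, hvE⟩ := mem_iUnion₂.1 hω
    obtain ⟨a, ha⟩ := exists_dir hv
    exact mem_iUnion.2 ⟨a, hωA, mem_iUnion₂.2 ⟨v, ha, hvE⟩⟩
  calc c * P (A ∩ ⋃ v ∈ (box d R)ᶜ, exitEvent α lam W U L R x t v)
      ≤ c * ∑ a : ℤˣ × Fin d, P (A ∩ ⋃ v ∈ {v : Fin d → ℤ | (R : ℤ) < a.1 * v a.2},
        exitEvent α lam W U L R x t v) := by
        gcongr
        exact (measure_mono hsub).trans (measure_iUnion_fintype_le _ _)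
    _ = ∑ a : ℤˣ × Fin d, c * P (A ∩ ⋃ v ∈ {v : Fin d → ℤ | (R : ℤ) < a.1 * v a.2},
        exitEvent α lam W U L R x t v) := Finset.mul_sum _ _ _
    _ ≤ ∑ _a : ℤˣ × Fin d, P (A ∩ {ω | ReachTo Sc W U L ω x (t + ε')}) := by
        apply Finset.sum_le_sum
        intro a _
        exact directional Sc hF hW1 a.1 a.2 (hB a.1 a.2) hA
    _ = _ := by rw [Finset.sum_const, Finset.card_univ, nsmul_eq_mul]

/-- all the boxes containing `x` can be left within time `< t` -/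
def exitAll (α lam : ℝ) (W : (Fin d → ℤ) → Ω → ℝ) (U L : Sym2 (Fin d → ℤ) → Ω → ℝ)
    (x : Fin d → ℤ) (t : ℝ≥0∞) : Set Ω :=
  ⋂ R : ℕ, ⋂ _ : x ∈ box d R, ⋃ v ∈ (box d R)ᶜ, exitEvent α lam W U L R x t v

omit [IsProbabilityMeasure P] in
theorem measurableSet_exitAll (x : Fin d → ℤ) (t : ℝ≥0∞) :
    MeasurableSet[sig (coords W U L) univ] (exitAll α lam W U L x t) := by
  refine MeasurableSet.iInter (fun R => MeasurableSet.iInter (fun _ =>
    MeasurableSet.biUnion (Set.to_countable _) (fun v _ => ?_)))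
  exact sig_mono (subset_univ _) _
    (measurableSet_exitEvent (C := univ) (subset_univ _) (mem_univ v))

omit [IsProbabilityMeasure P] in
theorem measurableSet_reachTo (x : Fin d → ℤ) (a : ℝ≥0∞) :
    MeasurableSet[sig (coords W U L) univ] {ω | ReachTo Sc W U L ω x a} := by
  have e : {ω | ReachTo Sc W U L ω x a} = ⋂ K : ℕ, ⋃ k : ℕ, ⋃ _ : K ≤ k, ⋃ z ∈ bigBox d (Sc.n k),
      ({ω | Sc.w k ≤ W z ω} ∩ {ω | dist' α lam W U L univ ω x z ≤ a}) := by
    ext ω
    simp only [ReachTo, Set.mem_ofPred_eq, mem_iInter, mem_iUnion, mem_inter_iff, exists_prop]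
  rw [e]
  refine MeasurableSet.iInter (fun K => MeasurableSet.iUnion (fun k => MeasurableSet.iUnion
    (fun _ => Finset.measurableSet_biUnion _ (fun z _ => MeasurableSet.inter ?_ ?_))))
  · exact measurableSet_le measurable_const (measurable_W_sig (mem_univ _))
  · apply measurableSet_le _ measurable_const
    exact (measurable_dist' (C := univ) (subset_univ _) x (mem_univ z)).mono
      (sig_mono (subset_univ _)) le_rfl

/-- a vertex from which all the boxes can be left within time `< t` is within `t + ε` of the hubs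
at infinity -/
theorem exitAll_reach (hF : Fam P W U L μW μL) (hd : 1 ≤ d) (hα : 0 < α) (hlam : 0 < lam)
    (hLpos : ∀ ε > 0, 0 < cdf μL ε) (hW1 : ∀ᵐ ω ∂P, ∀ v, 1 ≤ W v ω) (x : Fin d → ℤ) (t : ℝ≥0∞)
    {ε : ℝ} (hε : 0 < ε) :
    ∀ᵐ ω ∂P, ω ∈ exitAll α lam W U L x t → ReachTo Sc W U L ω x (t + ENNReal.ofReal ε) := by
  obtain ⟨c, hc, hB⟩ := exists_escape Sc hF hd hα hlam hLpos hε
  have hctop : c ≠ ∞ := by
    obtain ⟨B, -, h, -⟩ := hB 1 ⟨0, hd⟩ 0
    exact ne_top_of_le_ne_top ENNReal.one_ne_top (h.trans prob_le_one)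
  set Rch : Set Ω := {ω | ReachTo Sc W U L ω x (t + ENNReal.ofReal ε)} with hRch
  set E' : Set Ω := exitAll α lam W U L x t \ Rch with hE'
  have hE'm : MeasurableSet[sig (coords W U L) univ] E' :=
    (measurableSet_exitAll x t).diff (measurableSet_reachTo Sc x _)
  have hE'm2 : MeasurableSet[⨆ n, boxFil (d := d) hF.hX n] E' := sig_univ_le hF.hX _ hE'm
  set M : ℝ≥0∞ := ((Fintype.card (ℤˣ × Fin d) : ℕ) : ℝ≥0∞) with hM
  have hMtop : M ≠ ∞ := ENNReal.natCast_ne_top _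
  obtain ⟨R0, hR0⟩ := exists_mem_box x
  have key : ∀ η : ℝ≥0∞, 0 < η → c * P E' ≤ (M + c) * η := by
    intro η hη
    obtain ⟨n, A, hA, h1, h2⟩ := exists_approx (P := P) (boxFil (d := d) hF.hX) hE'm2 hη
    set m : ℕ := max n R0 with hm
    have hA' : MeasurableSet[sig (coords W U L) (idxIn (box d m) (box d m))] A :=
      (boxFil (d := d) hF.hX).mono (le_max_left n R0) _ hA
    have hx : x ∈ box d m := box_mono (le_max_right n R0) hR0
    have h3 := all_directions Sc hF (x := x) (t := t) hW1 hB hA'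
    have hsub : E' ⊆ ⋃ v ∈ (box d m)ᶜ, exitEvent α lam W U L m x t v := by
      intro ω hω
      exact mem_iInter₂.1 hω.1 m hx
    calc c * P E' ≤ c * (P (A ∩ ⋃ v ∈ (box d m)ᶜ, exitEvent α lam W U L m x t v) + P (E' \ A)) := by
          gcongr
          refine le_trans (measure_mono ?_) (measure_union_le _ _)
          intro ω hω
          by_cases hωA : ω ∈ A
          · exact Or.inl ⟨hωA, hsub hω⟩
          · exact Or.inr ⟨hω, hωA⟩
      _ = c * P (A ∩ ⋃ v ∈ (box d m)ᶜ, exitEvent α lam W U L m x t v) + c * P (E' \ A) := by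
          rw [mul_add]
      _ ≤ M * P (A ∩ Rch) + c * P (E' \ A) := by gcongr
      _ ≤ M * P (A \ E') + c * P (E' \ A) := by
          gcongr
          intro ω hω
          exact ⟨hω.1, fun h => h.2 hω.2⟩
      _ ≤ M * η + c * η := by gcongr
      _ = (M + c) * η := by rw [add_mul]
  have hzero : P E' = 0 := by
    by_contra hne
    have ha : 0 < c * P E' := ENNReal.mul_pos hc.ne' hne
    have hatop : c * P E' ≠ ∞ := ENNReal.mul_ne_top hctop (measure_ne_top _ _)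
    have hMc : M + c ≠ 0 := by
      intro h
      exact hc.ne' (by simpa using (add_eq_zero.1 h).2)
    have hMctop : M + c ≠ ∞ := ENNReal.add_ne_top.2 ⟨hMtop, hctop⟩
    have h := key (c * P E' / 2 / (M + c)) (ENNReal.div_pos (ENNReal.half_pos ha.ne').ne' hMctop)
    rw [ENNReal.mul_div_cancel hMc hMctop] at h
    exact absurd (ENNReal.half_lt_self ha.ne' hatop) (not_lt.2 h)
  have h := measure_eq_zero_iff_ae_notMem.1 hzero
  filter_upwards [h] with ω hω hexit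
  by_contra hcon
  exact hω ⟨hexit, hcon⟩

end Pool.Agent.Helper3.SFP
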