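import Pool.Agent.Helper3.SFP.Geom

namespace Pool.Agent.Helper3.SFP
open Filter MeasureTheory Set ProbabilityTheory
open scoped Topology ENNReal

variable {d : ℕ} {α lam : ℝ} {q F : ℝ → ℝ}

/-- tail sums of the costs -/
noncomputable def Scales.tail (Sc : Scales d α lam q F) (K : ℕ) : ℝ≥0∞ :=
  ∑' j, 2 * ENNReal.ofReal (Sc.δ (j + K))

theorem Scales.tail_anti (Sc : Scales d α lam q F) {K k : ℕ} (h : K ≤ k) :
    Sc.tail k ≤ Sc.tail K := by
  obtain ⟨m, rfl⟩ := Nat.exists_eq_add_of_le h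
  unfold Scales.tail
  have e : ∀ j, 2 * ENNReal.ofReal (Sc.δ (j + (K + m))) =
      (fun j => 2 * ENNReal.ofReal (Sc.δ (j + K))) (j + m) := by
    intro j
    simp only
    congr 3
    omega
  simp_rw [e]
  exact ENNReal.tsum_comp_le_tsum_of_injective (add_left_injective m) _

theorem Scales.tsum_ne_top (Sc : Scales d α lam q F) :
    ∑' j, 2 * ENNReal.ofReal (Sc.δ j) ≠ ∞ := by
  rw [ENNReal.tsum_mul_left]
  apply ENNReal.mul_ne_top (by norm_num)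
  rw [← ENNReal.ofReal_tsum_of_nonneg Sc.δ_nonneg Sc.δ_sum]
  exact ENNReal.ofReal_ne_top

theorem Scales.tendsto_tail (Sc : Scales d α lam q F) : Tendsto Sc.tail atTop (𝓝 0) :=
  ENNReal.tendsto_sum_nat_add _ Sc.tsum_ne_top

theorem Scales.sum_le_tail (Sc : Scales d α lam q F) {K k : ℕ} (h : K ≤ k) (m : ℕ) :
    ∑ j ∈ Finset.range m, 2 * ENNReal.ofReal (Sc.δ (k + j)) ≤ Sc.tail K := by
  refine le_trans ?_ (Sc.tail_anti h)
  unfold Scales.tail
  refine le_trans (le_of_eq ?_) (ENNReal.sum_le_tsum (Finset.range m))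
  apply Finset.sum_congr rfl
  intro j _
  rw [add_comm]

/-- a system of source boxes `Z k` and target boxes `Y k` -/
structure HubSys (d : ℕ) (n : ℕ → ℕ) where
  Z : ℕ → Finset (Fin d → ℤ)
  Y : ℕ → Finset (Fin d → ℤ)
  sub : ∀ k, Y k ⊆ Z k
  near : ∀ k, ∀ z ∈ Z k, ∀ y ∈ Y (k + 1), ∀ i, |z i - y i| ≤ 3 * n (k + 1)
  nearY : ∀ k, ∀ z ∈ Y k, ∀ y ∈ Y k, ∀ i, |z i - y i| ≤ 3 * n k

variable (Sc : Scales d α lam q F) (H : HubSys d Sc.n)
  {Ω : Type*} {W : (Fin d → ℤ) → Ω → ℝ} {U L : Sym2 (Fin d → ℤ) → Ω → ℝ}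

/-- the two-step connections between the hubs of levels `k` and `k + 1` exist -/
def goodLevel (W : (Fin d → ℤ) → Ω → ℝ) (U L : Sym2 (Fin d → ℤ) → Ω → ℝ) (k : ℕ) (ω : Ω) : Prop :=
  goodAt (H.Z k) (H.Y (k + 1)) (Sc.w k) (Sc.w (k + 1)) (Sc.δ k) W U L ω

/-- there is a hub at level `k` -/
def hasHub (W : (Fin d → ℤ) → Ω → ℝ) (k : ℕ) (ω : Ω) : Prop :=
  ∃ y ∈ H.Y k, Sc.w k ≤ W y ω

/-- the distance at `ω` -/
noncomputable def dist' (α lam : ℝ) (W : (Fin d → ℤ) → Ω → ℝ) (U L : Sym2 (Fin d → ℤ) → Ω → ℝ)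
    (A : Set (Fin d → ℤ)) (ω : Ω) (x y : Fin d → ℤ) : ℝ≥0∞ :=
  rd (glen (sfpGraph α lam (fun z => W z ω) (fun e => U e ω)) (fun e => L e ω)) A x y

theorem two_step (hα : 0 < α) (hlam : 0 < lam) {k : ℕ} {ω : Ω} (hg : goodLevel Sc H W U L k ω)
    {z z' : Fin d → ℤ} (hz : z ∈ H.Z k) (hwz : Sc.w k ≤ W z ω) (hz' : z' ∈ H.Y (k + 1))
    (hwz' : Sc.w (k + 1) ≤ W z' ω) :
    dist' α lam W U L univ ω z z' ≤ 2 * ENNReal.ofReal (Sc.δ k) := by
  by_cases hne : z = z'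
  · subst hne
    unfold dist'
    rw [rd_self]
    exact bot_le
  obtain ⟨y, hy, hyz, hyz', hwy, hU1, hU2, hL1, hL2⟩ := hg z hz z' hz' hne hwz hwz'
  have hw0 : ∀ k, 0 ≤ Sc.w k := fun k => le_trans zero_le_one (Sc.w_one k)
  have hhalf : (1 : ℝ) / 2 = 1 - Real.exp (-Real.log 2) := by
    rw [Real.exp_neg, Real.exp_log (by norm_num)]; norm_num
  have hcast : √(d : ℝ) * ((3 * Sc.n (k + 1) : ℕ) : ℝ) = 3 * √d * Sc.n (k + 1) := by
    push_cast; ring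
  have a1 : (sfpGraph α lam (fun z => W z ω) (fun e => U e ω)).Adj z y := by
    refine adj_of_le hα hlam hyz.symm (m := 3 * Sc.n (k + 1)) ?_ (hw0 k) (hw0 (k + 1)) hwz hwy
      (u := Real.log 2) (by rw [← hhalf]; exact hU1) ?_
    · intro i
      have := H.near k z hz y hy i
      push_cast
      exact this
    · rw [hcast]; exact Sc.conn k
  have a2 : (sfpGraph α lam (fun z => W z ω) (fun e => U e ω)).Adj y z' := by
    refine adj_of_le hα hlam hyz' (m := 3 * Sc.n (k + 1)) ?_ (hw0 (k + 1)) (hw0 (k + 1)) hwy hwz'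
      (u := Real.log 2) (by rw [← hhalf]; exact hU2) ?_
    · intro i
      have := H.nearY (k + 1) y hy z' hz' i
      push_cast
      exact this
    · rw [hcast]
      refine (Sc.conn k).trans ?_
      apply mul_le_mul_of_nonneg_right _ (hw0 _)
      exact mul_le_mul_of_nonneg_left (Sc.w_mono (Nat.le_succ k)) hlam.le
  unfold dist'
  refine (rd_triangle z y z').trans ?_
  rw [two_mul]
  apply add_le_add
  · refine (rd_len (mem_univ _)).trans ((iInf_le _ a1).trans ?_)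
    exact ENNReal.ofReal_le_ofReal hL1
  · refine (rd_len (mem_univ _)).trans ((iInf_le _ a2).trans ?_)
    exact ENNReal.ofReal_le_ofReal hL2

theorem chain (hα : 0 < α) (hlam : 0 < lam) {K : ℕ} {ω : Ω}
    (hg : ∀ k, K ≤ k → goodLevel Sc H W U L k ω) (hh : ∀ k, K ≤ k → hasHub Sc H W k ω)
    {k : ℕ} (hk : K ≤ k) {z : Fin d → ℤ} (hz : z ∈ H.Z k) (hwz : Sc.w k ≤ W z ω) (m : ℕ) :
    ∀ z' ∈ H.Y (k + 1 + m), Sc.w (k + 1 + m) ≤ W z' ω →
    dist' α lam W U L univ ω z z' ≤ ∑ j ∈ Finset.range (m + 1), 2 * ENNReal.ofReal (Sc.δ (k + j)) := by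
  induction m with
  | zero =>
    intro z' hz' hwz'
    simp only [Nat.add_zero] at hz' hwz'
    simpa using two_step Sc H hα hlam (hg k hk) hz hwz hz' hwz'
  | succ m ih =>
    intro z' hz' hwz'
    obtain ⟨y, hy, hwy⟩ := hh (k + 1 + m) (by omega)
    rw [Finset.sum_range_succ]
    refine (rd_triangle z y z').trans (add_le_add (ih y hy hwy) ?_)
    have := two_step Sc H hα hlam (hg (k + 1 + m) (by omega)) (H.sub _ hy) hwy
      (z' := z') hz' hwz'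
    have e : k + (m + 1) = k + 1 + m := by omega
    rw [e]
    exact this

theorem chain_tail (hα : 0 < α) (hlam : 0 < lam) {K : ℕ} {ω : Ω}
    (hg : ∀ k, K ≤ k → goodLevel Sc H W U L k ω) (hh : ∀ k, K ≤ k → hasHub Sc H W k ω)
    {k : ℕ} (hk : K ≤ k) {z : Fin d → ℤ} (hz : z ∈ H.Z k) (hwz : Sc.w k ≤ W z ω) {l : ℕ}
    (hl : k < l) {z' : Fin d → ℤ} (hz' : z' ∈ H.Y l) (hwz' : Sc.w l ≤ W z' ω) :
    dist' α lam W U L univ ω z z' ≤ Sc.tail K := by
  obtain ⟨m, rfl⟩ := Nat.exists_eq_add_of_le (Nat.succ_le_of_lt hl)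
  exact (chain Sc H hα hlam hg hh hk hz hwz m z' hz' hwz').trans (Sc.sum_le_tail hk _)

end Pool.Agent.Helper3.SFP
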