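import Pool.Agent.Helper3.SFP.Inv

namespace Pool.Agent.Helper3.SFP
open Filter MeasureTheory Set ProbabilityTheory
open scoped Topology ENNReal

/-- The Euclidean norm of an integer vector. -/
noncomputable def euclid {d : ℕ} (z : Fin d → ℤ) : ℝ := √(∑ i, ((z i : ℤ) : ℝ) ^ 2)

theorem euclid_neg {d : ℕ} (z : Fin d → ℤ) : euclid (-z) = euclid z := by
  simp [euclid]

/-- The scale-free percolation graph on `ℤ^d` determined by the vertex-weights `W` and the
auxiliary numbers `U`: two distinct vertices `x, y` are adjacent iff they are at Euclidean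
distance `1` or `U s(x, y) < 1 - exp (-lam * W x * W y / |x - y| ^ α)`. -/
def sfpGraph {d : ℕ} (α lam : ℝ) (W : (Fin d → ℤ) → ℝ) (U : Sym2 (Fin d → ℤ) → ℝ) :
    SimpleGraph (Fin d → ℤ) where
  Adj x y := x ≠ y ∧ (euclid (x - y) = 1 ∨
    U s(x, y) < 1 - Real.exp (-(lam * W x * W y / euclid (x - y) ^ α)))
  symm := ⟨fun x y h => by
    refine ⟨h.1.symm, ?_⟩
    have e : euclid (y - x) = euclid (x - y) := by
      rw [← euclid_neg (x - y)]
      congr 1
      abel
    have h2 := h.2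
    rw [Sym2.eq_swap, e, mul_assoc, mul_comm (W y) (W x), ← mul_assoc]
    exact h2⟩
  loopless := ⟨fun x h => h.1 rfl⟩

/-- The weighted (first-passage) distance `d_L(x, y) = inf_π ∑_{e ∈ π} L_e`, the infimum over all
paths `π` from `x` to `y` in the graph `G`. -/
noncomputable def fpDist {V : Type*} (G : SimpleGraph V) (L : Sym2 V → ℝ) (x y : V) : ℝ≥0∞ :=
  ⨅ p : G.Path x y, ((p : G.Walk x y).edges.map (fun e => ENNReal.ofReal (L e))).sum

/-- The ball `B_t^L(x) = {y : d_L(x, y) ≤ t}`. -/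
def fpBall {V : Type*} (G : SimpleGraph V) (L : Sym2 V → ℝ) (x : V) (t : ℝ≥0∞) : Set V :=
  {y | fpDist G L x y ≤ t}

/-- `τ_n(x) = inf {t : |B_t^L(x)| = n}`. -/
noncomputable def hitTime {V : Type*} (G : SimpleGraph V) (L : Sym2 V → ℝ) (x : V) (n : ℕ) :
    ℝ≥0∞ :=
  sInf {t : ℝ≥0∞ | (fpBall G L x t).encard = n}

/-- The explosion time of `x`: the infimum of all `t` for which the ball `B_t^L(x)` is
infinite. -/
noncomputable def explosionTime {V : Type*} (G : SimpleGraph V) (L : Sym2 V → ℝ) (x : V) :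
    ℝ≥0∞ :=
  sInf {t : ℝ≥0∞ | (fpBall G L x t).Infinite}

/-- Scale-free percolation on `ℤ^d` with i.i.d. edge-weights.  `W x` are the vertex-weights, with
common law `μW`; `L e` the edge-weights, with common law `μL`; and `U e` are auxiliary uniform
variables, used to open the edges independently given the vertex-weights; all these variables are
independent. -/
structure Model (d : ℕ) (τ : ℝ) {Ω : Type*} [MeasurableSpace Ω] (P : Measure Ω)
    (W : (Fin d → ℤ) → Ω → ℝ) (U L : Sym2 (Fin d → ℤ) → Ω → ℝ) (μW μL : Measure ℝ) : Prop where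
  measurable_W : ∀ x, Measurable (W x)
  measurable_U : ∀ e, Measurable (U e)
  measurable_L : ∀ e, Measurable (L e)
  /-- all the variables `W x`, `U e`, `L e` are mutually independent -/
  indep : iIndepFun (Sum.elim W (Sum.elim U L)) P
  law_W : ∀ x, P.map (W x) = μW
  law_U : ∀ e, P.map (U e) = (volume : Measure ℝ).restrict (Icc 0 1)
  law_L : ∀ e, P.map (L e) = μL
  /-- `P (W ≥ 1) = 1` -/
  one_le_W : μW (Iio 1) = 0
  /-- `P (W > t) = ℓ(t) t ^ (-(τ - 1))` with `ℓ` slowly varying at infinity -/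
  tail_W : ∃ ℓ : ℝ → ℝ, (∀ a > 0, Tendsto (fun t => ℓ (a * t) / ℓ t) atTop (𝓝 1)) ∧
    ∀ t ≥ 1, μW.real (Ioi t) = ℓ t * t ^ (-(τ - 1))
  /-- the edge-weights are nonnegative -/
  nonneg_L : μL (Iio 0) = 0
  /-- `I(L) = ∫_0^∞ F_L^(-1)(exp (-e^y)) dy < ∞` -/
  explosive : ∫⁻ y in Ioi (0 : ℝ), ENNReal.ofReal (genInv μL (Real.exp (-Real.exp y))) < ∞

end Pool.Agent.Helper3.SFP
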