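import Mathlib

namespace Pool.Agent.Helper3.SFP
open Filter Set
open scoped Topology ENNReal

variable {V : Type*}

/-- Least cost of a chain of at most `n` steps from `x`, all of whose points except possibly the
last one lie in `A`. -/
noncomputable def stepDist (len : V → V → ℝ≥0∞) (A : Set V) (x : V) : ℕ → V → ℝ≥0∞
  | 0, v => ⨅ _ : v = x, 0
  | n + 1, v => min (stepDist len A x n v) (⨅ w, ⨅ _ : w ∈ A, stepDist len A x n w + len w v)

/-- Least cost of a chain from `x` to `v`, all of whose points except possibly `v` lie in `A`. -/
noncomputable def rd (len : V → V → ℝ≥0∞) (A : Set V) (x v : V) : ℝ≥0∞ :=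
  ⨅ n, stepDist len A x n v

variable {len : V → V → ℝ≥0∞} {A : Set V}

theorem rd_self (x : V) : rd len A x x = 0 := by
  apply le_antisymm _ bot_le
  refine (iInf_le _ 0).trans ?_
  simp [stepDist]

theorem rd_step {x w v : V} (hw : w ∈ A) : rd len A x v ≤ rd len A x w + len w v := by
  unfold rd
  rw [ENNReal.iInf_add]
  refine le_iInf (fun n => (iInf_le _ (n + 1)).trans ?_)
  rw [stepDist]
  exact (min_le_right _ _).trans (iInf₂_le w hw)

theorem rd_len {x v : V} (hx : x ∈ A) : rd len A x v ≤ len x v := by
  have := rd_step (len := len) (x := x) (v := v) hx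
  rwa [rd_self, zero_add] at this

theorem rd_triangle (x w v : V) : rd len A x v ≤ rd len A x w + rd len A w v := by
  have h : ∀ n v, rd len A x v ≤ rd len A x w + stepDist len A w n v := by
    intro n
    induction n with
    | zero =>
      intro v
      rw [stepDist]
      by_cases hv : v = w
      · simp [hv]
      · simp [hv]
    | succ n ih =>
      intro v
      rw [stepDist]
      rcases min_choice (stepDist len A w n v)
        (⨅ u, ⨅ _ : u ∈ A, stepDist len A w n u + len u v) with h | h
      · rw [h]; exact ih v
      · rw [h]
        rw [ENNReal.add_iInf]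
        refine le_iInf (fun u => ?_)
        by_cases hu : u ∈ A
        · simp only [hu, iInf_pos]
          calc rd len A x v ≤ rd len A x u + len u v := rd_step hu
            _ ≤ rd len A x w + stepDist len A w n u + len u v := by gcongr; exact ih u
            _ = rd len A x w + (stepDist len A w n u + len u v) := by rw [add_assoc]
        · simp [hu]
  have e : rd len A w v = ⨅ n, stepDist len A w n v := rfl
  rw [e, ENNReal.add_iInf]
  exact le_iInf (fun n => h n v)

theorem stepDist_anti {B : Set V} (hAB : A ⊆ B) (x : V) (n : ℕ) (v : V) :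
    stepDist len B x n v ≤ stepDist len A x n v := by
  induction n generalizing v with
  | zero => rw [stepDist, stepDist]
  | succ n ih =>
    rw [stepDist, stepDist]
    refine le_min ((min_le_left _ _).trans (ih v)) ((min_le_right _ _).trans ?_)
    refine le_iInf₂ (fun w hw => (iInf₂_le w (hAB hw)).trans ?_)
    gcongr
    exact ih w

theorem rd_anti {B : Set V} (hAB : A ⊆ B) (x v : V) : rd len B x v ≤ rd len A x v :=
  iInf_mono (fun n => stepDist_anti hAB x n v)

/-- First exit decomposition. -/
theorem exit_le {x z : V} (hx : x ∈ A) (hz : z ∉ A) :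
    (⨅ v, ⨅ _ : v ∉ A, rd len A x v) ≤ rd len univ x z := by
  classical
  set m : ℝ≥0∞ := ⨅ v, ⨅ _ : v ∉ A, rd len A x v with hm
  have key : ∀ n z, min m (if z ∈ A then rd len A x z else ⊤) ≤ stepDist len univ x n z := by
    intro n
    induction n with
    | zero =>
      intro z
      rw [stepDist]
      by_cases hzx : z = x
      · subst hzx
        simp [hx, rd_self]
      · simp [hzx]
    | succ n ih =>
      intro z
      rw [stepDist]
      refine le_min (ih z) (le_iInf₂ (fun w _ => ?_))
      refine le_trans ?_ (add_le_add (ih w) le_rfl)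
      rcases min_choice m (if w ∈ A then rd len A x w else ⊤) with h | h
      · rw [h]
        exact (min_le_left _ _).trans le_self_add
      · rw [h]
        by_cases hw : w ∈ A
        · simp only [hw, if_true]
          by_cases hzA : z ∈ A
          · simp only [hzA, if_true]
            exact (min_le_right _ _).trans (rd_step hw)
          · refine (min_le_left _ _).trans ?_
            exact (iInf₂_le z hzA).trans (rd_step hw)
        · simp [hw]
  conv_rhs => rw [rd]
  refine le_iInf (fun n => ?_)
  have := key n z
  rw [if_neg hz, min_top_right] at this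
  exact this

theorem exists_exit {x z : V} (hx : x ∈ A) (hz : z ∉ A) {s : ℝ≥0∞} (hs : rd len univ x z < s) :
    ∃ v, v ∉ A ∧ rd len A x v < s := by
  have h := (exit_le hx hz).trans_lt hs
  rw [iInf_lt_iff] at h
  obtain ⟨v, hv⟩ := h
  rw [iInf_lt_iff] at hv
  obtain ⟨hv1, hv2⟩ := hv
  exact ⟨v, hv1, hv2⟩

end Pool.Agent.Helper3.SFP
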