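import Pool.Agent.Helper3.SFP.HubEvents

namespace Pool.Agent.Helper3.SFP
open Filter MeasureTheory Set ProbabilityTheory
open scoped Topology ENNReal

variable {d : ℕ} {α lam : ℝ} {Ω : Type*} {mΩ : MeasurableSpace Ω} {P : Measure Ω}
  [IsProbabilityMeasure P]
  {W : (Fin d → ℤ) → Ω → ℝ} {U L : Sym2 (Fin d → ℤ) → Ω → ℝ} {μW μL : Measure ℝ}

variable (Sc : Scales d α lam (fun t => μW.real (Ici t)) (cdf μL))

/-- `x` is within distance `a` of hubs of arbitrarily high level -/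
def ReachTo (W : (Fin d → ℤ) → Ω → ℝ) (U L : Sym2 (Fin d → ℤ) → Ω → ℝ) (ω : Ω)
    (x : Fin d → ℤ) (a : ℝ≥0∞) : Prop :=
  ∀ K, ∃ k, K ≤ k ∧ ∃ z ∈ bigBox d (Sc.n k), Sc.w k ≤ W z ω ∧
    dist' α lam W U L univ ω x z ≤ a

theorem unif_lt {p : ℝ} (hp1 : p ≤ 1) :
    (volume : Measure ℝ).restrict (Icc 0 1) (Iio p) = ENNReal.ofReal p := by
  rw [Measure.restrict_apply measurableSet_Iio]
  have : Iio p ∩ Icc (0 : ℝ) 1 = Ico 0 p := by
    ext x
    simp only [mem_inter_iff, mem_Iio, mem_Icc, mem_Ico]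
    constructor
    · rintro ⟨h1, h2, h3⟩; exact ⟨h2, h1⟩
    · rintro ⟨h1, h2⟩; exact ⟨h2, h1, by linarith⟩
  rw [this, Real.volume_Ico]
  simp

theorem exists_escape (hF : Fam P W U L μW μL) (hd : 1 ≤ d) (hα : 0 < α) (hlam : 0 < lam)
    (hLpos : ∀ ε > 0, 0 < cdf μL ε) {ε : ℝ} (hε : 0 < ε) :
    ∃ c : ℝ≥0∞, 0 < c ∧ ∀ (σ : ℤˣ) (i : Fin d) (v : Fin d → ℤ), ∃ B : Set Ω,
      MeasurableSet[sig (coords W U L)
        (idxIn {z | (σ : ℤ) * v i < (σ : ℤ) * z i} {z | (σ : ℤ) * v i ≤ (σ : ℤ) * z i})] B ∧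
      c ≤ P B ∧ ∀ ω ∈ B, 1 ≤ W v ω → ReachTo Sc W U L ω v (ENNReal.ofReal ε) := by
  have hpL : IsProbabilityMeasure μL := by
    rw [← hF.lL s(0, 0)]; exact Measure.isProbabilityMeasure_map (hF.hL _).aemeasurable
  -- choice of `k1`
  have ht1 := Sc.tendsto_tail.eventually (gt_mem_nhds
    (show (0 : ℝ≥0∞) < ENNReal.ofReal (ε / 2) by simpa using hε))
  have ht2 := (ENNReal.tendsto_sum_nat_add _ (tsum_badTerm Sc)).eventually
    (gt_mem_nhds (show (0 : ℝ≥0∞) < 1 / 2 by simp))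
  obtain ⟨k1, hkA, hkB⟩ := (ht1.and ht2).exists
  have hn1 : 1 ≤ Sc.n k1 := Sc.n_pos k1
  have hn1r : (0 : ℝ) < Sc.n k1 := by exact_mod_cast hn1
  have hd0 : (0 : ℝ) < d := by exact_mod_cast hd
  set N : ℕ := (Sc.n k1) ^ d with hN
  have hNpos : 0 < N := by positivity
  set u0 : ℝ := lam / (√d * Sc.n k1) ^ α with hu0
  have hbase : 0 < (√d * Sc.n k1) ^ α := Real.rpow_pos_of_pos (by positivity) α
  have hu0pos : 0 < u0 := by positivity
  set p : ℝ := 1 - Real.exp (-u0) with hp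
  have hexp1 : Real.exp (-u0) < 1 := by
    have h1 : Real.exp (-u0) < Real.exp 0 := Real.exp_lt_exp.2 (by linarith)
    simpa using h1
  have hp0 : 0 < p := by rw [hp]; linarith
  have hp1 : p ≤ 1 := by rw [hp]; linarith [Real.exp_pos (-u0)]
  have hFpos : 0 < μL (Iic (ε / 2)) := by
    rw [← ofReal_cdf]
    simpa using hLpos (ε / 2) (by linarith)
  set c1 : ℝ≥0∞ := (1 / 2) / (N : ℝ≥0∞) with hc1
  have hNtop : (N : ℝ≥0∞) ≠ ∞ := ENNReal.natCast_ne_top N
  have hN0 : (N : ℝ≥0∞) ≠ 0 := by exact_mod_cast hNpos.ne'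
  have hc1pos : 0 < c1 := ENNReal.div_pos (by simp) hNtop
  refine ⟨c1 * (ENNReal.ofReal p * μL (Iic (ε / 2))), ?_, ?_⟩
  · have h1 : ENNReal.ofReal p ≠ 0 := by simpa using hp0
    exact ENNReal.mul_pos hc1pos.ne' (ENNReal.mul_pos h1 hFpos.ne').ne'
  intro σ i v
  set H := halfSys Sc.n Sc.n_mono v σ with hH
  set C : Set (Fin d → ℤ) := {z | (σ : ℤ) * v i < (σ : ℤ) * z i} with hC
  set D : Set (Fin d → ℤ) := {z | (σ : ℤ) * v i ≤ (σ : ℤ) * z i} with hD
  have hcubeC : ∀ n, ∀ z ∈ cube v σ n, z ∈ C := by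
    intro n z hz
    have := (mem_cube.1 hz i).1
    have h2 : (σ : ℤ) * (z i - v i) = (σ : ℤ) * z i - (σ : ℤ) * v i := by ring
    rw [h2] at this
    show (σ : ℤ) * v i < (σ : ℤ) * z i
    linarith
  have hZ : ∀ k, (H.Z k).card ≤ (4 * Sc.n k + 1) ^ d := by
    intro k
    show (cube v σ (Sc.n k)).card ≤ _
    rw [card_cube]
    exact Nat.pow_le_pow_left (by omega) d
  have hY : ∀ k, (H.Y k).card = (Sc.n k) ^ d := fun k => card_cube v σ (Sc.n k)
  set G : Set Ω := {ω | ∀ k, k1 ≤ k → levelOK Sc H W U L k ω} with hG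
  have hGmeas : MeasurableSet[sig (coords W U L) (idxIn C C)] G := by
    have e : G = ⋂ k, ⋂ _ : k1 ≤ k, {ω | levelOK Sc H W U L k ω} := by
      ext ω; simp [hG]
    rw [e]
    refine MeasurableSet.iInter (fun k => MeasurableSet.iInter (fun _ => ?_))
    exact measurableSet_levelOK Sc H (fun k z hz => hcubeC _ z hz) (fun k z hz => hcubeC _ z hz) k
  have hGmeas' : MeasurableSet G := sig_le hF.hX _ _ hGmeas
  have hGprob : 1 / 2 ≤ P G := by
    have h1 := measure_exists_not_levelOK Sc hF H hZ hY k1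
    have h2 : P Gᶜ ≤ 1 / 2 := h1.trans hkB.le
    have h3 : P G = 1 - P Gᶜ := by
      rw [prob_compl_eq_one_sub hGmeas']
      rw [ENNReal.sub_sub_cancel (by simp) prob_le_one]
    rw [h3]
    calc (1 / 2 : ℝ≥0∞) = 1 - 1 / 2 := by
          rw [one_div, ENNReal.one_sub_inv_two]
      _ ≤ 1 - P Gᶜ := tsub_le_tsub_left h2 1
  -- choose the hub
  obtain ⟨y, hy, hyP⟩ : ∃ y ∈ cube v σ (Sc.n k1), c1 ≤ P (G ∩ {ω | Sc.w k1 ≤ W y ω}) := by
    by_contra hcon
    push Not at hcon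
    have hne : (cube v σ (Sc.n k1)).Nonempty := by
      rw [← Finset.card_pos, card_cube]; positivity
    have hcov : G ⊆ ⋃ y ∈ cube v σ (Sc.n k1), (G ∩ {ω | Sc.w k1 ≤ W y ω}) := by
      intro ω hω
      obtain ⟨y, hy, hwy⟩ := (hω k1 le_rfl).2
      exact mem_iUnion₂.2 ⟨y, hy, hω, hwy⟩
    have h1 : P G ≤ ∑ y ∈ cube v σ (Sc.n k1), P (G ∩ {ω | Sc.w k1 ≤ W y ω}) :=
      (measure_mono hcov).trans (measure_biUnion_finset_le _ _)
    have h2 : ∑ y ∈ cube v σ (Sc.n k1), P (G ∩ {ω | Sc.w k1 ≤ W y ω}) <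
        ∑ _y ∈ cube v σ (Sc.n k1), c1 := ENNReal.sum_lt_sum_of_nonempty hne hcon
    rw [Finset.sum_const, card_cube, nsmul_eq_mul, ← hN, hc1,
      ENNReal.mul_div_cancel hN0 hNtop] at h2
    exact absurd (hGprob.trans h1) (not_le.2 h2)
  have hyC : y ∈ C := hcubeC _ y hy
  have hvC : v ∉ C := by
    intro h
    exact lt_irrefl _ (show (σ : ℤ) * v i < (σ : ℤ) * v i from h)
  have hne : v ≠ y := by
    rintro rfl
    exact hvC hyC
  set G1 : Set Ω := G ∩ {ω | Sc.w k1 ≤ W y ω} with hG1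
  have hG1meas : MeasurableSet[sig (coords W U L) (idxIn C C)] G1 :=
    hGmeas.inter (measurableSet_le measurable_const (measurable_W_sig hyC))
  set e : Sym2 (Fin d → ℤ) := s(v, y) with he
  set E1 : Set Ω := {ω | U e ω < p} with hE1
  set E2 : Set Ω := {ω | L e ω ≤ ε / 2} with hE2
  have hE1meas : MeasurableSet[sig (coords W U L) {Sum.inr (Sum.inl e)}] E1 :=
    measurableSet_lt (measurable_U_sig (by simp)) measurable_const
  have hE2meas : MeasurableSet[sig (coords W U L) {Sum.inr (Sum.inr e)}] E2 :=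
    measurableSet_le (measurable_L_sig (by simp)) measurable_const
  have hP1 : P E1 = ENNReal.ofReal p := by
    rw [← unif_lt hp1, ← hF.lU e, Measure.map_apply (hF.hU e) measurableSet_Iio]
    rfl
  have hP2 : P E2 = μL (Iic (ε / 2)) := by
    rw [← hF.lL e, Measure.map_apply (hF.hL e) measurableSet_Iic]
    rfl
  refine ⟨G1 ∩ (E1 ∩ E2), ?_, ?_, ?_⟩
  · have hCD : C ⊆ D := fun z hz => le_of_lt (show (σ : ℤ) * v i < (σ : ℤ) * z i from hz)
    have heD : ∀ u ∈ e, u ∈ D := by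
      intro u hu
      rcases Sym2.mem_iff.1 hu with h | h
      · rw [h]
        show (σ : ℤ) * v i ≤ (σ : ℤ) * v i
        exact le_rfl
      · rw [h]; exact hCD hyC
    refine MeasurableSet.inter ?_ (MeasurableSet.inter ?_ ?_)
    · refine sig_mono ?_ _ hG1meas
      rintro (z | e' | e') h
      · exact h
      · exact fun u hu => hCD (h u hu)
      · exact fun u hu => hCD (h u hu)
    · refine sig_mono ?_ _ hE1meas
      rw [singleton_subset_iff]; exact heD
    · refine sig_mono ?_ _ hE2meas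
      rw [singleton_subset_iff]; exact heD
  · have hi1 : P (E1 ∩ E2) = P E1 * P E2 := by
      apply indep_inter hF.hX hF.hI _ hE1meas hE2meas
      rw [Set.disjoint_singleton]
      simp
    have hi2 : P (G1 ∩ (E1 ∩ E2)) = P G1 * P (E1 ∩ E2) := by
      apply indep_inter hF.hX hF.hI (S := idxIn C C)
        (T := {Sum.inr (Sum.inl e), Sum.inr (Sum.inr e)}) _ hG1meas
      · refine MeasurableSet.inter ?_ ?_
        · refine sig_mono ?_ _ hE1meas
          simp
        · refine sig_mono ?_ _ hE2meas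
          simp
      · rw [Set.disjoint_left]
        intro j hj hj'
        rcases hj' with rfl | rfl
        · exact hvC (hj v (by simp [he]))
        · exact hvC (hj v (by simp [he]))
    rw [hi2, hi1, hP1, hP2]
    exact mul_le_mul_left hyP _
  · rintro ω ⟨⟨hωG, hωy⟩, hωU, hωL⟩ hWv K
    have hlev : ∀ k, k1 ≤ k → levelOK Sc H W U L k ω := hωG
    -- the first edge
    have hadj : (sfpGraph α lam (fun z => W z ω) (fun e => U e ω)).Adj v y := by
      refine adj_of_le hα hlam hne (m := Sc.n k1) ?_ zero_le_one zero_le_one hWv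
        ((Sc.w_one k1).trans hωy) (u := u0) hωU ?_
      · intro j
        have := abs_of_mem_cube hy j
        rwa [abs_sub_comm]
      · rw [hu0, div_mul_cancel₀ _ hbase.ne']
        simp
    have hd1 : dist' α lam W U L univ ω v y ≤ ENNReal.ofReal (ε / 2) := by
      refine (rd_len (mem_univ _)).trans ((iInf_le _ hadj).trans ?_)
      exact ENNReal.ofReal_le_ofReal hωL
    -- a high level
    have hbound : ∀ᶠ k in atTop, ∀ j, |v j| ≤ Sc.n k := by
      rw [eventually_all]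
      intro j
      filter_upwards [Sc.n_tend.eventually_ge_atTop (v j).natAbs] with k hk
      have : ((v j).natAbs : ℤ) ≤ Sc.n k := by exact_mod_cast hk
      rwa [Int.natCast_natAbs] at this
    obtain ⟨k, hk1, hk2, hk3⟩ := ((eventually_ge_atTop K).and
      ((eventually_gt_atTop k1).and hbound)).exists
    obtain ⟨z, hz, hwz⟩ := (hlev k hk2.le).2
    refine ⟨k, hk1, z, ?_, hwz, ?_⟩
    · rw [mem_bigBox]
      intro j
      have h1 := abs_of_mem_cube hz j
      have h2 := hk3 j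
      calc |z j| = |(z j - v j) + v j| := by ring_nf
        _ ≤ |z j - v j| + |v j| := abs_add_le _ _
        _ ≤ 2 * Sc.n k := by linarith
    · have h3 := chain_tail Sc H hα hlam (fun k hk => (hlev k hk).1) (fun k hk => (hlev k hk).2)
        (k := k1) le_rfl (z := y) hy hωy hk2 hz hwz
      refine (rd_triangle v y z).trans ?_
      refine (add_le_add hd1 (h3.trans hkA.le)).trans ?_
      rw [← ENNReal.ofReal_add (by linarith) (by linarith)]
      simp

end Pool.Agent.Helper3.SFP
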