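import Pool.Agent.Helper3.SFP.Defs
import Pool.Agent.Helper3.SFP.Dist

namespace Pool.Agent.Helper3.SFP
open Filter Set
open scoped Topology ENNReal

variable {V : Type*}

/-- length of the edge `uv`, infinite if `u, v` are not adjacent -/
noncomputable def glen (G : SimpleGraph V) (L : Sym2 V → ℝ) (u v : V) : ℝ≥0∞ :=
  ⨅ _ : G.Adj u v, ENNReal.ofReal (L s(u, v))

/-- cost of a walk -/
noncomputable def wcost (G : SimpleGraph V) (L : Sym2 V → ℝ) {x y : V} (p : G.Walk x y) : ℝ≥0∞ :=
  (p.edges.map (fun e => ENNReal.ofReal (L e))).sum

theorem fpDist_le_wcost {G : SimpleGraph V} {L : Sym2 V → ℝ} {x y : V} (p : G.Walk x y) :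
    fpDist G L x y ≤ wcost G L p := by
  classical
  refine (iInf_le _ p.toPath).trans ?_
  apply List.Sublist.sum_le_sum
  · exact (p.edges_bypass_sublist_edges).map _
  · intro a _
    exact bot_le

theorem fpDist_eq_rd (G : SimpleGraph V) (L : Sym2 V → ℝ) (x y : V) :
    fpDist G L x y = rd (glen G L) univ x y := by
  apply le_antisymm
  · have h : ∀ n v, (⨅ p : G.Walk x v, wcost G L p) ≤ stepDist (glen G L) univ x n v := by
      intro n
      induction n with
      | zero =>
        intro v
        rw [stepDist]
        refine le_iInf (fun hv => ?_)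
        subst hv
        refine (iInf_le _ SimpleGraph.Walk.nil).trans ?_
        simp [wcost]
      | succ n ih =>
        intro v
        rw [stepDist]
        refine le_min (ih v) (le_iInf₂ (fun w _ => ?_))
        refine le_trans ?_ (add_le_add (ih w) le_rfl)
        rw [glen, ENNReal.add_iInf]
        refine le_iInf (fun hadj => ?_)
        rw [ENNReal.iInf_add]
        refine le_iInf (fun p => (iInf_le _ (p.concat hadj)).trans ?_)
        simp [wcost, SimpleGraph.Walk.edges_concat]
    unfold rd
    refine le_iInf (fun n => le_trans ?_ (h n y))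
    exact le_iInf (fun p => fpDist_le_wcost p)
  · refine le_iInf (fun p => ?_)
    have h : ∀ {u v : V} (p : G.Walk u v), rd (glen G L) univ u v ≤ wcost G L p := by
      intro u v p
      induction p with
      | nil => rw [rd_self]; exact bot_le
      | @cons u w v hadj p ih =>
        refine (rd_triangle u w v).trans ?_
        have h1 : rd (glen G L) univ u w ≤ ENNReal.ofReal (L s(u, w)) :=
          (rd_len (mem_univ u)).trans (iInf_le _ hadj)
        refine (add_le_add h1 ih).trans ?_
        simp [wcost]
    exact h p.1

end Pool.Agent.Helper3.SFP
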