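import Pool.Agent.Helper3.SFP.Approx

namespace Pool.Agent.Helper3.SFP
open Filter MeasureTheory Set ProbabilityTheory
open scoped Topology ENNReal

theorem tail_lower {μW : Measure ℝ} [IsProbabilityMeasure μW] {τ : ℝ} (hτ : 1 < τ)
    {ℓ : ℝ → ℝ} (hslow : ∀ a > 0, Tendsto (fun t => ℓ (a * t) / ℓ t) atTop (𝓝 1))
    (htail : ∀ t ≥ 1, μW.real (Ioi t) = ℓ t * t ^ (-(τ - 1))) (β' : ℝ) (hβ' : τ - 1 < β') :
    ∀ᶠ t in atTop, t ^ (-β') ≤ μW.real (Ici t) := by
  have hG : Antitone (fun t : ℝ => μW.real (Ioi t)) := fun a b hab =>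
    measureReal_mono (Ioi_subset_Ioi hab)
  have hne : ∀ᶠ t in atTop, ℓ t ≠ 0 := by
    have h := (hslow 2 (by norm_num)).eventually (lt_mem_nhds (show (0 : ℝ) < 1 by norm_num))
    filter_upwards [h] with t ht h0
    rw [h0, div_zero] at ht
    exact lt_irrefl _ ht
  have hpos : ∀ᶠ t in atTop, 0 < μW.real (Ioi t) := by
    filter_upwards [hne, eventually_ge_atTop 1] with t ht ht1
    have h1 : μW.real (Ioi t) ≠ 0 := by
      rw [htail t ht1]
      exact mul_ne_zero ht (Real.rpow_pos_of_pos (by linarith) _).ne'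
    exact lt_of_le_of_ne measureReal_nonneg (Ne.symm h1)
  have hlim : Tendsto (fun t => μW.real (Ioi (2 * t)) / μW.real (Ioi t)) atTop
      (𝓝 (2 ^ (-(τ - 1)))) := by
    have h := (hslow 2 (by norm_num)).mul_const ((2 : ℝ) ^ (-(τ - 1)))
    rw [one_mul] at h
    refine h.congr' ?_
    filter_upwards [eventually_ge_atTop 1] with t ht
    rw [htail t ht, htail (2 * t) (by linarith), Real.mul_rpow (by norm_num) (by linarith)]
    have h1 : t ^ (-(τ - 1)) ≠ 0 := (Real.rpow_pos_of_pos (by linarith) _).ne'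
    field_simp
  filter_upwards [potter_lower hG (by linarith) hβ' hpos hlim] with t ht
  exact ht.trans (measureReal_mono Ioi_subset_Ici_self)

theorem rd_symm {V : Type*} {len : V → V → ℝ≥0∞} (h : ∀ u v, len u v = len v u) (x y : V) :
    rd len univ x y = rd len univ y x := by
  have key : ∀ x y, rd len univ y x ≤ rd len univ x y := by
    intro x y
    have h1 : ∀ n v, rd len univ v x ≤ stepDist len univ x n v := by
      intro n
      induction n with
      | zero =>
        intro v
        rw [stepDist]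
        refine le_iInf (fun hv => ?_)
        rw [hv, rd_self]
      | succ n ih =>
        intro v
        rw [stepDist]
        refine le_min (ih v) (le_iInf₂ (fun w _ => ?_))
        calc rd len univ v x ≤ rd len univ v w + rd len univ w x := rd_triangle v w x
          _ ≤ len v w + stepDist len univ x n w := add_le_add (rd_len (mem_univ v)) (ih w)
          _ = stepDist len univ x n w + len w v := by rw [h v w, add_comm]
    exact le_iInf (fun n => h1 n y)
  exact le_antisymm (key y x) (key x y)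

theorem glen_symm {V : Type*} (G : SimpleGraph V) (L : Sym2 V → ℝ) (u v : V) :
    glen G L u v = glen G L v u := by
  unfold glen
  rw [Sym2.eq_swap]
  exact iInf_congr_Prop ⟨fun h => h.symm, fun h => h.symm⟩ (fun _ => rfl)

theorem explosionTime_le_liminf {V : Type*} (G : SimpleGraph V) (L : Sym2 V → ℝ) (x : V) :
    explosionTime G L x ≤ liminf (fun n => hitTime G L x n) atTop := by
  refine le_of_forall_gt_imp_ge_of_dense (fun s hs => ?_)
  have hfreq : ∃ᶠ n in atTop, hitTime G L x n < s := frequently_lt_of_liminf_lt (by isBoundedDefault) hs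
  apply sInf_le
  have hall : ∀ n : ℕ, (n : ℕ∞) ≤ (fpBall G L x s).encard := by
    intro n
    obtain ⟨m, hm, hms⟩ := frequently_atTop.1 hfreq n
    obtain ⟨t, ht, hts⟩ := sInf_lt_iff.1 hms
    have hsub : fpBall G L x t ⊆ fpBall G L x s := fun y hy => le_trans hy hts.le
    calc (n : ℕ∞) ≤ (m : ℕ∞) := by exact_mod_cast hm
      _ = (fpBall G L x t).encard := ht.symm
      _ ≤ _ := encard_le_encard hsub
  show (fpBall G L x s).Infinite
  rw [← encard_eq_top_iff]
  exact ENat.eq_top_iff_forall_ge.2 hall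

variable {d : ℕ} {α lam : ℝ} {Ω : Type*} {mΩ : MeasurableSpace Ω} {P : Measure Ω}
  [IsProbabilityMeasure P]
  {W : (Fin d → ℤ) → Ω → ℝ} {U L : Sym2 (Fin d → ℤ) → Ω → ℝ} {μW μL : Measure ℝ}

theorem box_finite (d R : ℕ) : (box d R).Finite := by
  have : box d R = ((Finset.Icc (fun _ => -(R : ℤ)) (fun _ => (R : ℤ)) : Finset (Fin d → ℤ)) :
      Set (Fin d → ℤ)) := by
    ext z
    simp only [box, Set.mem_ofPred_eq, Finset.coe_Icc, mem_Icc, Pi.le_def, abs_le]
    exact ⟨fun h => ⟨fun i => (h i).1, fun i => (h i).2⟩, fun h i => ⟨h.1 i, h.2 i⟩⟩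
  rw [this]
  exact Finset.finite_toSet _

/-- beyond the explosion time all the boxes can be left -/
theorem mem_exitAll (ω : Ω) (x : Fin d → ℤ) {t : ℝ≥0∞}
    (ht : explosionTime (sfpGraph α lam (fun z => W z ω) (fun e => U e ω)) (fun e => L e ω) x < t) :
    ω ∈ exitAll α lam W U L x t := by
  obtain ⟨t', ht', htt⟩ := sInf_lt_iff.1 ht
  rw [exitAll, mem_iInter₂]
  intro R hx
  obtain ⟨z, hz, hzR⟩ := ht'.exists_notMem_finite (box_finite d R)
  have h1 : rd (glen (sfpGraph α lam (fun z => W z ω) (fun e => U e ω)) (fun e => L e ω))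
      univ x z < t := by
    rw [← fpDist_eq_rd]
    exact lt_of_le_of_lt hz htt
  obtain ⟨v, hv, hvt⟩ := exists_exit hx hzR h1
  exact mem_iUnion₂.2 ⟨v, hv, hvt⟩

variable (Sc : Scales d α lam (fun t => μW.real (Ici t)) (cdf μL))

omit [IsProbabilityMeasure P] in
/-- two vertices that reach the hubs at infinity are close to each other -/
theorem glue (hα : 0 < α) (hlam : 0 < lam) {ω : Ω}
    (hlev : ∀ᶠ k in atTop, levelOK Sc (fullSys d Sc.n Sc.n_mono) W U L k ω)
    {x y : Fin d → ℤ} {a b : ℝ≥0∞} (hx : ReachTo Sc W U L ω x a) (hy : ReachTo Sc W U L ω y b) :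
    dist' α lam W U L univ ω x y ≤ a + b := by
  obtain ⟨K0, hK0⟩ := hlev.exists_forall_of_atTop
  have hsymm : ∀ u v, dist' α lam W U L univ ω u v = dist' α lam W U L univ ω v u :=
    fun u v => rd_symm (glen_symm _ _) u v
  have key : ∀ K, K0 ≤ K → dist' α lam W U L univ ω x y ≤ a + b + 2 * Sc.tail K := by
    intro K hK
    obtain ⟨k, hk, z, hz, hwz, hxz⟩ := hx K
    obtain ⟨k', hk', z', hz', hwz', hyz'⟩ := hy K
    set l := max k k' + 1 with hl
    have hgood : ∀ j, K ≤ j → levelOK Sc (fullSys d Sc.n Sc.n_mono) W U L j ω :=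
      fun j hj => hK0 j (hK.trans hj)
    have hl1 : k < l := by omega
    have hl2 : k' < l := by omega
    obtain ⟨u, hu, hwu⟩ := (hgood l (by omega)).2
    have h1 := chain_tail Sc (fullSys d Sc.n Sc.n_mono) hα hlam (fun j hj => (hgood j hj).1)
      (fun j hj => (hgood j hj).2) hk (z := z) hz hwz hl1 hu hwu
    have h2 := chain_tail Sc (fullSys d Sc.n Sc.n_mono) hα hlam (fun j hj => (hgood j hj).1)
      (fun j hj => (hgood j hj).2) hk' (z := z') hz' hwz' hl2 hu hwu
    calc dist' α lam W U L univ ω x y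
        ≤ dist' α lam W U L univ ω x z + dist' α lam W U L univ ω z y := rd_triangle x z y
      _ ≤ dist' α lam W U L univ ω x z + (dist' α lam W U L univ ω z u +
          dist' α lam W U L univ ω u y) := by gcongr; exact rd_triangle z u y
      _ ≤ dist' α lam W U L univ ω x z + (dist' α lam W U L univ ω z u +
          (dist' α lam W U L univ ω u z' + dist' α lam W U L univ ω z' y)) := by
          gcongr; exact rd_triangle u z' y
      _ ≤ a + (Sc.tail K + (Sc.tail K + b)) := by
          rw [hsymm u z', hsymm z' y]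
          gcongr
      _ = a + b + 2 * Sc.tail K := by ring
  have hlim : Tendsto (fun K => a + b + 2 * Sc.tail K) atTop (𝓝 (a + b + 2 * 0)) :=
    Tendsto.const_add _ (ENNReal.Tendsto.const_mul Sc.tendsto_tail (Or.inr (by norm_num)))
  rw [mul_zero, add_zero] at hlim
  refine ge_of_tendsto hlim ?_
  filter_upwards [eventually_ge_atTop K0] with K hK
  exact key K hK

end Pool.Agent.Helper3.SFP
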