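import Pool.Agent.Helper3.SFP.HubProb

namespace Pool.Agent.Helper3.SFP
open Filter MeasureTheory Set ProbabilityTheory
open scoped Topology ENNReal

variable {d : ℕ}

/-- the cube `v + σ {1, …, n}^d` -/
noncomputable def cube (v : Fin d → ℤ) (σ : ℤˣ) (n : ℕ) : Finset (Fin d → ℤ) :=
  (Finset.Icc (1 : Fin d → ℤ) (fun _ => (n : ℤ))).image (fun a => v + fun i => (σ : ℤ) * a i)

theorem unit_sq (σ : ℤˣ) : (σ : ℤ) * (σ : ℤ) = 1 := by
  rcases Int.units_eq_one_or σ with h | h <;> subst h <;> norm_num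

theorem mem_cube {v : Fin d → ℤ} {σ : ℤˣ} {n : ℕ} {y : Fin d → ℤ} :
    y ∈ cube v σ n ↔ ∀ i, 1 ≤ (σ : ℤ) * (y i - v i) ∧ (σ : ℤ) * (y i - v i) ≤ n := by
  have hs := unit_sq σ
  simp only [cube, Finset.mem_image, Finset.mem_Icc]
  constructor
  · rintro ⟨a, ⟨h1, h2⟩, rfl⟩ i
    have e : (σ : ℤ) * ((v + fun i => (σ : ℤ) * a i) i - v i) = a i := by
      simp only [Pi.add_apply]
      calc (σ : ℤ) * (v i + (σ : ℤ) * a i - v i) = ((σ : ℤ) * (σ : ℤ)) * a i := by ring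
        _ = a i := by rw [hs, one_mul]
    rw [e]
    exact ⟨h1 i, h2 i⟩
  · intro h
    refine ⟨fun i => (σ : ℤ) * (y i - v i), ⟨fun i => (h i).1, fun i => (h i).2⟩, ?_⟩
    funext i
    simp only [Pi.add_apply]
    rw [← mul_assoc, hs, one_mul]
    ring

theorem card_cube (v : Fin d → ℤ) (σ : ℤˣ) (n : ℕ) : (cube v σ n).card = n ^ d := by
  rw [cube, Finset.card_image_of_injective]
  · rw [Pi.card_Icc]
    simp
  · intro a b hab
    have hs := unit_sq σ
    funext i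
    have h := congrFun hab i
    simp only [Pi.add_apply] at h
    have h2 : (σ : ℤ) * a i = (σ : ℤ) * b i := by linarith
    calc a i = ((σ : ℤ) * (σ : ℤ)) * a i := by rw [hs, one_mul]
      _ = (σ : ℤ) * ((σ : ℤ) * b i) := by rw [mul_assoc, h2]
      _ = b i := by rw [← mul_assoc, hs, one_mul]

theorem abs_of_mem_cube {v : Fin d → ℤ} {σ : ℤˣ} {n : ℕ} {y : Fin d → ℤ} (h : y ∈ cube v σ n)
    (i : Fin d) : |y i - v i| ≤ n := by
  obtain ⟨h1, h2⟩ := mem_cube.1 h i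
  rcases Int.units_eq_one_or σ with hs | hs <;> subst hs
  · simp only [Units.val_one, one_mul] at h1 h2
    rw [abs_le]; constructor <;> linarith
  · simp only [Units.val_neg, Units.val_one, neg_mul, one_mul] at h1 h2
    rw [abs_le]; constructor <;> linarith

/-- the box `{-2n, …, 2n}^d` -/
noncomputable def bigBox (d n : ℕ) : Finset (Fin d → ℤ) :=
  Finset.Icc (fun _ => -(2 * (n : ℤ))) (fun _ => 2 * (n : ℤ))

theorem mem_bigBox {n : ℕ} {z : Fin d → ℤ} : z ∈ bigBox d n ↔ ∀ i, |z i| ≤ 2 * n := by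
  simp only [bigBox, Finset.mem_Icc, abs_le]
  exact ⟨fun h i => ⟨h.1 i, h.2 i⟩, fun h => ⟨fun i => (h i).1, fun i => (h i).2⟩⟩

theorem card_bigBox (n : ℕ) : (bigBox d n).card = (4 * n + 1) ^ d := by
  rw [bigBox, Pi.card_Icc]
  simp only [Int.card_Icc, Finset.prod_const, Finset.card_univ, Fintype.card_fin]
  congr 1
  omega

theorem euclid_le {z : Fin d → ℤ} {m : ℕ} (h : ∀ i, |z i| ≤ m) : euclid z ≤ √d * m := by
  unfold euclid
  have h1 : ∑ i, ((z i : ℤ) : ℝ) ^ 2 ≤ d * (m : ℝ) ^ 2 := by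
    calc ∑ i, ((z i : ℤ) : ℝ) ^ 2 ≤ ∑ _i : Fin d, (m : ℝ) ^ 2 := by
          apply Finset.sum_le_sum
          intro i _
          rw [sq_le_sq, Nat.abs_cast]
          exact_mod_cast h i
      _ = d * (m : ℝ) ^ 2 := by simp
  calc √(∑ i, ((z i : ℤ) : ℝ) ^ 2) ≤ √(d * (m : ℝ) ^ 2) := Real.sqrt_le_sqrt h1
    _ = √d * m := by
      rw [Real.sqrt_mul (by positivity), Real.sqrt_sq (by positivity)]

theorem euclid_pos {z : Fin d → ℤ} (h : z ≠ 0) : 0 < euclid z := by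
  unfold euclid
  apply Real.sqrt_pos.2
  obtain ⟨i, hi⟩ := Function.ne_iff.1 h
  apply Finset.sum_pos'
  · intro j _; positivity
  · refine ⟨i, Finset.mem_univ _, ?_⟩
    have : ((z i : ℤ) : ℝ) ≠ 0 := by exact_mod_cast hi
    positivity

/-- adjacency from a lower bound for the product of the weights -/
theorem adj_of_le {α lam : ℝ} (hα : 0 < α) (hlam : 0 < lam) {W : (Fin d → ℤ) → ℝ}
    {U : Sym2 (Fin d → ℤ) → ℝ} {x y : Fin d → ℤ} (hne : x ≠ y) {m : ℕ}
    (hm : ∀ i, |x i - y i| ≤ m) {a b u : ℝ} (ha : 0 ≤ a) (hb : 0 ≤ b) (hWx : a ≤ W x)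
    (hWy : b ≤ W y) (hU : U s(x, y) < 1 - Real.exp (-u)) (hu : u * (√d * m) ^ α ≤ lam * a * b) :
    (sfpGraph α lam W U).Adj x y := by
  refine ⟨hne, Or.inr (lt_of_lt_of_le hU ?_)⟩
  have h1 : 0 < euclid (x - y) := euclid_pos (sub_ne_zero.2 hne)
  have h2 : euclid (x - y) ≤ √d * m := euclid_le hm
  have h3 : euclid (x - y) ^ α ≤ (√d * m) ^ α := Real.rpow_le_rpow h1.le h2 hα.le
  have h4 : 0 < euclid (x - y) ^ α := Real.rpow_pos_of_pos h1 α
  have h5 : lam * a * b ≤ lam * W x * W y := by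
    apply mul_le_mul _ hWy hb (mul_nonneg hlam.le (ha.trans hWx))
    exact mul_le_mul_of_nonneg_left hWx hlam.le
  have h6 : u ≤ lam * W x * W y / euclid (x - y) ^ α := by
    rw [le_div_iff₀ h4]
    by_cases hu0 : 0 ≤ u
    · calc u * euclid (x - y) ^ α ≤ u * (√d * m) ^ α := mul_le_mul_of_nonneg_left h3 hu0
        _ ≤ _ := hu.trans h5
    · push Not at hu0
      have : 0 ≤ lam * a * b := by positivity
      nlinarith
  have h7 := Real.exp_le_exp.2 (neg_le_neg h6)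
  linarith

end Pool.Agent.Helper3.SFP
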