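import Mathlib

namespace Pool.Agent.Helper3.SFP
open Filter MeasureTheory Set ProbabilityTheory
open scoped Topology ENNReal

variable {Ω ι : Type*} {mΩ : MeasurableSpace Ω}

/-- The sigma-algebra generated by the coordinates `X i`, `i ∈ S`. -/
@[reducible] def sig (X : ι → Ω → ℝ) (S : Set ι) : MeasurableSpace Ω :=
  ⨆ i ∈ S, MeasurableSpace.comap (X i) inferInstance

theorem sig_mono {X : ι → Ω → ℝ} {S T : Set ι} (h : S ⊆ T) : sig X S ≤ sig X T :=
  biSup_mono (fun _ hi => h hi)

theorem sig_le {X : ι → Ω → ℝ} (hX : ∀ i, Measurable (X i)) (S : Set ι) : sig X S ≤ mΩ :=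
  iSup₂_le (fun i _ => (hX i).comap_le)

theorem measurable_coord {X : ι → Ω → ℝ} {S : Set ι} {i : ι} (hi : i ∈ S) :
    Measurable[sig X S] (X i) := by
  have h : MeasurableSpace.comap (X i) inferInstance ≤ sig X S :=
    le_iSup₂ (f := fun i (_ : i ∈ S) => MeasurableSpace.comap (X i) inferInstance) i hi
  exact (comap_measurable (X i)).mono h le_rfl

theorem indep_inter {P : Measure Ω} {X : ι → Ω → ℝ}
    (hX : ∀ i, Measurable (X i)) (hI : iIndepFun X P) {S T : Set ι} (hST : Disjoint S T)
    {A B : Set Ω} (hA : MeasurableSet[sig X S] A) (hB : MeasurableSet[sig X T] B) :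
    P (A ∩ B) = P A * P B := by
  have h := indep_iSup_of_disjoint (fun i => (hX i).comap_le) hI.iIndep hST
  rw [Indep_iff] at h
  exact h A B hA hB

theorem indep_biInter {P : Measure Ω} [IsProbabilityMeasure P] {X : ι → Ω → ℝ}
    (hX : ∀ i, Measurable (X i)) (hI : iIndepFun X P) {κ : Type*} (T : Finset κ)
    (S : κ → Set ι) (hS : ∀ a ∈ T, ∀ b ∈ T, a ≠ b → Disjoint (S a) (S b)) (A : κ → Set Ω)
    (hA : ∀ a ∈ T, MeasurableSet[sig X (S a)] (A a)) :
    P (⋂ a ∈ T, A a) = ∏ a ∈ T, P (A a) := by
  classical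
  induction T using Finset.induction_on with
  | empty => simp
  | insert a T ha ih =>
    rw [Finset.prod_insert ha, Finset.set_biInter_insert]
    rw [← ih (fun b hb c hc => hS b (Finset.mem_insert_of_mem hb) c (Finset.mem_insert_of_mem hc))
      (fun b hb => hA b (Finset.mem_insert_of_mem hb))]
    apply indep_inter hX hI (S := S a) (T := ⋃ b ∈ T, S b)
    · rw [Set.disjoint_iUnion₂_right]
      intro b hb
      apply hS a (Finset.mem_insert_self _ _) b (Finset.mem_insert_of_mem hb)
      rintro rfl
      exact ha hb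
    · exact hA a (Finset.mem_insert_self _ _)
    · apply Finset.measurableSet_biInter
      intro b hb
      apply sig_mono _ _ (hA b (Finset.mem_insert_of_mem hb))
      intro i hi
      exact Set.mem_iUnion₂.2 ⟨b, hb, hi⟩

theorem exists_approx {P : Measure Ω} [IsProbabilityMeasure P] (ℱ : Filtration ℕ mΩ) {E : Set Ω}
    (hE : MeasurableSet[⨆ n, ℱ n] E) {η : ℝ≥0∞} (hη : 0 < η) :
    ∃ n, ∃ A, MeasurableSet[ℱ n] A ∧ P (E \ A) < η ∧ P (A \ E) < η := by
  have hle : (⨆ n, ℱ n : MeasurableSpace Ω) ≤ mΩ := iSup_le (fun n => ℱ.le n)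
  have hE' : MeasurableSet E := hle _ hE
  set g : Ω → ℝ := E.indicator (fun _ => (1 : ℝ)) with hg
  have hint : Integrable g P := (integrable_const 1).indicator hE'
  have hgm : StronglyMeasurable[⨆ n, ℱ n] g :=
    StronglyMeasurable.indicator (stronglyMeasurable_const) hE
  have hlim := hint.tendsto_ae_condExp hgm
  set A : ℕ → Set Ω := fun n => {ω | 1 / 2 < (P[g | ℱ n]) ω} with hA
  have hAm : ∀ n, MeasurableSet[ℱ n] (A n) := fun n =>
    measurableSet_lt measurable_const stronglyMeasurable_condExp.measurable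
  have hAm' : ∀ n, MeasurableSet (A n) := fun n => ℱ.le n _ (hAm n)
  have h1 : Tendsto (fun n => P (E \ A n)) atTop (𝓝 0) := by
    have : Tendsto (fun n => P (E \ A n)) atTop (𝓝 (P ∅)) := by
      apply tendsto_measure_of_ae_tendsto_indicator_of_isFiniteMeasure atTop
        (MeasurableSet.empty) (fun n => hE'.diff (hAm' n))
      filter_upwards [hlim] with ω hω
      by_cases hωE : ω ∈ E
      · have : g ω = 1 := by simp [hg, hωE]
        rw [this] at hω
        filter_upwards [hω.eventually (lt_mem_nhds (by norm_num : (1 / 2 : ℝ) < 1))] with n hn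
        simp only [Set.mem_sdiff, mem_empty_iff_false, iff_false, not_and, not_not]
        intro _
        exact hn
      · filter_upwards with n
        simp [hωE]
    simpa using this
  have h2 : Tendsto (fun n => P (A n \ E)) atTop (𝓝 0) := by
    have : Tendsto (fun n => P (A n \ E)) atTop (𝓝 (P ∅)) := by
      apply tendsto_measure_of_ae_tendsto_indicator_of_isFiniteMeasure atTop
        (MeasurableSet.empty) (fun n => (hAm' n).diff hE')
      filter_upwards [hlim] with ω hω
      by_cases hωE : ω ∈ E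
      · filter_upwards with n
        simp [hωE]
      · have : g ω = 0 := by simp [hg, hωE]
        rw [this] at hω
        filter_upwards [hω.eventually (gt_mem_nhds (by norm_num : (0 : ℝ) < 1 / 2))] with n hn
        simp only [Set.mem_sdiff, mem_empty_iff_false, iff_false, not_and, not_not]
        intro h
        have h' : 1 / 2 < (P[g | ℱ n]) ω := h
        exact absurd (h'.trans hn) (lt_irrefl _)
    simpa using this
  obtain ⟨n, hn1, hn2⟩ := ((h1.eventually (gt_mem_nhds hη)).and
    (h2.eventually (gt_mem_nhds hη))).exists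
  exact ⟨n, A n, hAm n, hn1, hn2⟩

end Pool.Agent.Helper3.SFP
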