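import Mathlib

namespace Pool.Agent.Helper3.SFP
open Filter Real
open scoped Topology

/-- A lower Potter bound: a nonincreasing function `G` with `G (2 t) / G t → 2 ^ (-β)` decays slower
than every power `t ^ (-β')`, `β' > β`. -/
theorem potter_lower {G : ℝ → ℝ} (hG : Antitone G) {β β' : ℝ} (hβ : 0 < β) (hβ' : β < β')
    (hpos : ∀ᶠ t in atTop, 0 < G t)
    (hlim : Tendsto (fun t => G (2 * t) / G t) atTop (𝓝 (2 ^ (-β)))) :
    ∀ᶠ t in atTop, t ^ (-β') ≤ G t := by
  obtain ⟨β1, h1, h2⟩ : ∃ β1, β < β1 ∧ β1 < β' := exists_between hβ'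
  have hlt : (2 : ℝ) ^ (-β1) < 2 ^ (-β) := by
    apply Real.rpow_lt_rpow_of_exponent_lt (by norm_num)
    linarith
  have hev := hlim.eventually (lt_mem_nhds hlt)
  obtain ⟨T, hT⟩ := (hev.and (hpos.and (eventually_ge_atTop 1))).exists_forall_of_atTop
  have hT1 : 1 ≤ T := (hT T le_rfl).2.2
  have hT0 : 0 < T := by linarith
  have hGT : 0 < G T := (hT T le_rfl).2.1
  -- iterate
  have hiter : ∀ n : ℕ, (2 : ℝ) ^ (-β1 * n) * G T ≤ G (2 ^ n * T) := by
    intro n
    induction n with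
    | zero => simp
    | succ n ih =>
      have hTn : T ≤ 2 ^ n * T := by
        have : (1 : ℝ) ≤ 2 ^ n := one_le_pow₀ (by norm_num)
        nlinarith
      obtain ⟨ha, hb, -⟩ := hT (2 ^ n * T) hTn
      have hc : 2 ^ (-β1) * G (2 ^ n * T) ≤ G (2 * (2 ^ n * T)) := by
        rw [lt_div_iff₀ hb] at ha
        exact ha.le
      calc (2 : ℝ) ^ (-β1 * ((n + 1 : ℕ) : ℝ)) * G T
          = 2 ^ (-β1) * (2 ^ (-β1 * n) * G T) := by
            rw [← mul_assoc, ← Real.rpow_add (by norm_num)]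
            push_cast
            ring_nf
        _ ≤ 2 ^ (-β1) * G (2 ^ n * T) := by
            apply mul_le_mul_of_nonneg_left ih
            positivity
        _ ≤ G (2 * (2 ^ n * T)) := hc
        _ = G (2 ^ (n + 1) * T) := by ring_nf
  -- general t
  have hgen : ∀ t, T ≤ t → (2 * t / T) ^ (-β1) * G T ≤ G t := by
    intro t ht
    have ht0 : 0 < t := by linarith
    have hx : 1 ≤ t / T := by rw [le_div_iff₀ hT0]; linarith
    obtain ⟨n, hn1, hn2⟩ := exists_nat_pow_near hx (by norm_num : (1 : ℝ) < 2)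
    have h3 : t ≤ 2 ^ (n + 1) * T := by
      have := hn2.le
      rwa [div_le_iff₀ hT0] at this
    have h4 : (2 : ℝ) ^ (n + 1) ≤ 2 * t / T := by
      rw [pow_succ]
      have : (2 : ℝ) ^ n ≤ t / T := hn1
      calc (2 : ℝ) ^ n * 2 ≤ t / T * 2 := by linarith
        _ = 2 * t / T := by ring
    calc (2 * t / T) ^ (-β1) * G T ≤ ((2 : ℝ) ^ (n + 1)) ^ (-β1) * G T := by
          apply mul_le_mul_of_nonneg_right _ hGT.le
          apply Real.rpow_le_rpow_of_nonpos (by positivity) h4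
          linarith
      _ = 2 ^ (-β1 * ((n + 1 : ℕ) : ℝ)) * G T := by
          rw [← Real.rpow_natCast, ← Real.rpow_mul (by norm_num)]
          ring_nf
      _ ≤ G (2 ^ (n + 1) * T) := hiter (n + 1)
      _ ≤ G t := hG h3
  -- compare powers
  have hlim2 : Tendsto (fun t : ℝ => t ^ (β' - β1)) atTop atTop :=
    tendsto_rpow_atTop (by linarith)
  have hC : 0 < (2 / T) ^ (-β1) * G T := by positivity
  filter_upwards [hlim2.eventually_ge_atTop (((2 / T) ^ (-β1) * G T)⁻¹), eventually_ge_atTop T]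
    with t ht1 ht2
  have ht0 : 0 < t := by linarith
  refine le_trans ?_ (hgen t ht2)
  have h5 : (2 * t / T) ^ (-β1) = (2 / T) ^ (-β1) * t ^ (-β1) := by
    rw [← Real.mul_rpow (by positivity) ht0.le]
    ring_nf
  have h6 : t ^ (-β') = t ^ (-β1) * (t ^ (β' - β1))⁻¹ := by
    rw [← Real.rpow_neg ht0.le, ← Real.rpow_add ht0]
    ring_nf
  rw [h5, h6]
  have h7 : (t ^ (β' - β1))⁻¹ ≤ (2 / T) ^ (-β1) * G T := by
    rw [inv_le_comm₀ (by positivity) hC]
    exact ht1
  calc t ^ (-β1) * (t ^ (β' - β1))⁻¹ ≤ t ^ (-β1) * ((2 / T) ^ (-β1) * G T) := by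
        apply mul_le_mul_of_nonneg_left h7
        positivity
    _ = (2 / T) ^ (-β1) * t ^ (-β1) * G T := by ring

end Pool.Agent.Helper3.SFP
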