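import Pool.Agent.Helper3.SFP.Inv
import Pool.Agent.Helper3.SFP.Potter

namespace Pool.Agent.Helper3.SFP
open Filter Real MeasureTheory Set ProbabilityTheory
open scoped Topology ENNReal

/-- Scales for the hub construction: radii `n k`, weight thresholds `w k`, costs `δ k`. -/
structure Scales (d : ℕ) (α lam : ℝ) (q F : ℝ → ℝ) where
  n : ℕ → ℕ
  w : ℕ → ℝ
  δ : ℕ → ℝ
  n_pos : ∀ k, 1 ≤ n k
  n_mono : Monotone n
  n_tend : Tendsto n atTop atTop
  w_one : ∀ k, 1 ≤ w k
  w_mono : Monotone w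
  conn : ∀ k, log 2 * (3 * √d * n (k + 1)) ^ α ≤ lam * w k * w (k + 1)
  δ_nonneg : ∀ k, 0 ≤ δ k
  δ_sum : Summable δ
  bad_sum : Summable (fun k => ((4 * n k + 1 : ℕ) : ℝ) ^ d * (n (k + 1) : ℝ) ^ d *
    exp (-(((n (k + 1) : ℝ) ^ d - 2) * (q (w (k + 1)) * F (δ k) ^ 2 / 4))))
  empty_sum : Summable (fun k => exp (-((n k : ℝ) ^ d * q (w k))))

theorem summable_exp_neg_pow {ρ : ℝ} (hρ : 1 < ρ) : Summable (fun k : ℕ => exp (-ρ ^ k)) := by
  have hr : exp (-(ρ - 1)) < 1 := by
    have h1 : exp (-(ρ - 1)) < exp 0 := exp_lt_exp.2 (by linarith)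
    simpa using h1
  refine Summable.of_nonneg_of_le (fun k => (exp_pos _).le) (fun k => ?_)
    (summable_geometric_of_lt_one (exp_pos _).le hr)
  rw [← exp_nat_mul]
  apply exp_le_exp.2
  have h := one_add_mul_le_pow (a := ρ - 1) (by linarith) k
  have h2 : (1 + (ρ - 1)) ^ k = ρ ^ k := by ring
  rw [h2] at h
  nlinarith

theorem linear_le_exp (a b κ c : ℝ) (hκ : 0 < κ) (hc : 0 < c) :
    ∀ᶠ x : ℝ in atTop, a + b * x ≤ κ * exp (c * x) := by
  have h1 : Tendsto (fun x : ℝ => c * x) atTop atTop := tendsto_id.const_mul_atTop hc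
  have h2 : Tendsto (fun x : ℝ => exp (c * x) / (c * x) ^ 1) atTop atTop :=
    (tendsto_exp_div_pow_atTop 1).comp h1
  filter_upwards [h2.eventually_ge_atTop ((|a| + |b|) / (κ * c)), eventually_ge_atTop 1]
    with x hx hx1
  rw [pow_one, div_le_div_iff₀ (by positivity) (by positivity)] at hx
  have h3 : (|a| + |b|) * x ≤ κ * exp (c * x) := by
    have : (|a| + |b|) * (c * x) = c * ((|a| + |b|) * x) := by ring
    rw [this] at hx
    have : exp (c * x) * (κ * c) = c * (κ * exp (c * x)) := by ring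
    rw [this] at hx
    exact le_of_mul_le_mul_left hx hc
  refine le_trans ?_ h3
  have ha := le_abs_self a
  have hb := le_abs_self b
  have ha0 := abs_nonneg a
  nlinarith

theorem exists_scales {d : ℕ} (hd : 1 ≤ d) {α lam β : ℝ} (hα : 0 < α) (hlam : 0 < lam)
    (hβ : 0 < β) (hγ : α * β < 2 * d) {q : ℝ → ℝ}
    (hq : ∀ β', β < β' → ∀ᶠ t in atTop, t ^ (-β') ≤ q t)
    {μ : Measure ℝ} [IsProbabilityMeasure μ] (h0 : μ (Iio 0) = 0)
    (hint : ∫⁻ y in Ioi (0 : ℝ), ENNReal.ofReal (genInv μ (exp (-exp y))) < ∞) :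
    Nonempty (Scales d α lam q (cdf μ)) := by
  have hd0 : (0 : ℝ) < d := by exact_mod_cast hd
  -- parameters
  obtain ⟨s, hs1, hs2⟩ : ∃ s, α / 2 < s ∧ s < d / β := by
    apply exists_between
    rw [div_lt_div_iff₀ (by norm_num) hβ]
    linarith
  have hs0 : 0 < s := by linarith
  obtain ⟨β', hβ'1, hβ'2⟩ : ∃ β', β < β' ∧ β' < d / s := by
    apply exists_between
    rw [lt_div_iff₀ hs0]
    rw [lt_div_iff₀ hβ] at hs2
    linarith
  have hβ'0 : 0 < β' := by linarith
  obtain ⟨D, hD⟩ : ∃ D, D = d - s * β' := ⟨_, rfl⟩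
  have hDpos : 0 < D := by
    rw [lt_div_iff₀ hs0] at hβ'2
    rw [hD]; linarith
  obtain ⟨κ0, hκ0⟩ : ∃ κ0, κ0 = (2 * s - α) / (α + 1) := ⟨_, rfl⟩
  have hκ0pos : 0 < κ0 := by
    rw [hκ0]; apply div_pos <;> linarith
  obtain ⟨ρ, hρ⟩ : ∃ ρ, ρ = 1 + κ0 := ⟨_, rfl⟩
  have hρ1 : 1 < ρ := by rw [hρ]; linarith
  have hρ2 : 0 < s * (1 + ρ) - α * ρ := by
    have h1 : (α + 1) * κ0 = 2 * s - α := by
      rw [hκ0]; field_simp
    have h2 : α * κ0 < 2 * s - α := by nlinarith
    rw [hρ]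
    nlinarith [mul_pos hs0 hκ0pos]
  have hc3 : 0 < D / 4 := by positivity
  -- sequences
  set x : ℕ → ℝ := fun k => ρ ^ k with hx
  have hx1 : ∀ k, 1 ≤ x k := fun k => one_le_pow₀ hρ1.le
  have hxmono : Monotone x := fun a b hab => pow_le_pow_right₀ hρ1.le hab
  have hxtend : Tendsto x atTop atTop := tendsto_pow_atTop_atTop_of_one_lt hρ1
  have hxsucc : ∀ k, x (k + 1) = ρ * x k := fun k => by simp only [hx]; ring
  set N : ℕ → ℕ := fun k => ⌊exp (x k)⌋₊ with hN
  have hexp2 : ∀ k, 2 ≤ exp (x k) := fun k => by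
    have := add_one_le_exp (x k)
    linarith [hx1 k]
  have hNle : ∀ k, (N k : ℝ) ≤ exp (x k) := fun k => Nat.floor_le (exp_pos _).le
  have hNge : ∀ k, exp (x k) / 2 ≤ N k := fun k => by
    have h1 := Nat.lt_floor_add_one (exp (x k))
    have h2 := hexp2 k
    have h3 : (N k : ℝ) = (⌊exp (x k)⌋₊ : ℝ) := rfl
    rw [h3]; linarith
  have hN1 : ∀ k, 1 ≤ N k := fun k => by
    have h1 := hNge k
    have h2 := hexp2 k
    have h3 : (1 : ℝ) ≤ N k := by linarith
    exact_mod_cast h3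
  have hNmono : Monotone N := fun a b hab => Nat.floor_mono (exp_le_exp.2 (hxmono hab))
  have hNtend : Tendsto N atTop atTop :=
    tendsto_nat_floor_atTop.comp (tendsto_exp_atTop.comp hxtend)
  set w : ℕ → ℝ := fun k => exp (s * x k) with hw
  have hw1 : ∀ k, 1 ≤ w k := fun k => by
    simp only [hw]
    apply one_le_exp
    have := hx1 k
    positivity
  have hwmono : Monotone w := fun a b hab => exp_le_exp.2 (by
    apply mul_le_mul_of_nonneg_left (hxmono hab) hs0.le)
  have hwtend : Tendsto w atTop atTop :=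
    tendsto_exp_atTop.comp (hxtend.const_mul_atTop hs0)
  set δ : ℕ → ℝ := fun k => genInv μ (exp (-(D / 4 * ρ ^ k))) with hδ
  have hδ0 : ∀ k, 0 ≤ δ k := fun k => genInv_nonneg h0 (exp_pos _)
  have hδsum : Summable δ := summable_genInv h0 hint hc3 hρ1
  have hFδ : ∀ k, exp (-(D / 4 * x k)) ≤ cdf μ (δ k) := fun k => by
    apply le_cdf_genInv
    rw [← exp_zero]
    apply exp_lt_exp.2
    have : 0 < D / 4 * ρ ^ k := by positivity
    linarith
  -- q bound
  have hqw : ∀ᶠ k in atTop, exp (-(s * β' * x k)) ≤ q (w k) := by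
    filter_upwards [hwtend.eventually (hq β' hβ'1)] with k hk
    refine le_trans (le_of_eq ?_) hk
    simp only [hw]
    rw [← exp_mul]
    ring_nf
  -- connection
  have hconn : ∀ᶠ k in atTop, log 2 * (3 * √d * N (k + 1)) ^ α ≤ lam * w k * w (k + 1) := by
    have h1 : Tendsto (fun k => exp ((s * (1 + ρ) - α * ρ) * x k)) atTop atTop :=
      tendsto_exp_atTop.comp (hxtend.const_mul_atTop hρ2)
    filter_upwards [h1.eventually_ge_atTop (log 2 * (3 * √d) ^ α / lam)] with k hk
    rw [div_le_iff₀ hlam] at hk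
    have h2 : (3 * √d * N (k + 1)) ^ α ≤ (3 * √d) ^ α * exp (α * (ρ * x k)) := by
      rw [Real.mul_rpow (by positivity) (by positivity)]
      apply mul_le_mul_of_nonneg_left _ (by positivity)
      rw [mul_comm α, exp_mul]
      apply Real.rpow_le_rpow (by positivity) _ hα.le
      rw [← hxsucc]
      exact hNle _
    have hlog2 : 0 < log 2 := log_pos (by norm_num)
    calc log 2 * (3 * √d * N (k + 1)) ^ α
        ≤ log 2 * ((3 * √d) ^ α * exp (α * (ρ * x k))) :=
          mul_le_mul_of_nonneg_left h2 hlog2.le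
      _ = (log 2 * (3 * √d) ^ α) * exp (α * (ρ * x k)) := by ring
      _ ≤ (exp ((s * (1 + ρ) - α * ρ) * x k) * lam) * exp (α * (ρ * x k)) :=
          mul_le_mul_of_nonneg_right hk (exp_pos _).le
      _ = lam * w k * w (k + 1) := by
          have : exp ((s * (1 + ρ) - α * ρ) * x k) * exp (α * (ρ * x k)) =
              exp (s * x k) * exp (s * (ρ * x k)) := by
            rw [← exp_add, ← exp_add]; ring_nf
          simp only [hw]
          rw [hxsucc]
          calc exp ((s * (1 + ρ) - α * ρ) * x k) * lam * exp (α * (ρ * x k))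
              = lam * (exp ((s * (1 + ρ) - α * ρ) * x k) * exp (α * (ρ * x k))) := by ring
            _ = _ := by rw [this]; ring
  -- lower bound for `N ^ d`
  have hNd : ∀ k, (1 / 2 : ℝ) ^ d * exp (d * x k) ≤ (N k : ℝ) ^ d := fun k => by
    rw [exp_nat_mul, ← mul_pow]
    apply pow_le_pow_left₀ (by positivity)
    linarith [hNge k]
  -- the empty bound
  have hempty : ∀ᶠ k in atTop, exp (-((N k : ℝ) ^ d * q (w k))) ≤ exp (-ρ ^ k) := by
    have h1 := hxtend.eventually (linear_le_exp 0 1 ((1 / 2 : ℝ) ^ d) D (by positivity) hDpos)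
    filter_upwards [h1, hqw] with k hk1 hk2
    apply exp_le_exp.2
    apply neg_le_neg
    calc ρ ^ k = 0 + 1 * x k := by simp [hx]
      _ ≤ (1 / 2) ^ d * exp (D * x k) := hk1
      _ = ((1 / 2) ^ d * exp (d * x k)) * exp (-(s * β' * x k)) := by
          rw [mul_assoc, ← exp_add, hD]; ring_nf
      _ ≤ (N k : ℝ) ^ d * q (w k) := by
          apply mul_le_mul (hNd k) hk2 (exp_pos _).le (by positivity)
  have hbad : ∀ᶠ k in atTop, ((4 * N k + 1 : ℕ) : ℝ) ^ d * (N (k + 1) : ℝ) ^ d *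
    exp (-(((N (k + 1) : ℝ) ^ d - 2) * (q (w (k + 1)) * cdf μ (δ k) ^ 2 / 4)))
      ≤ exp (-ρ ^ (k + 1)) := by
    have h1 := (tendsto_add_atTop_nat 1).eventually (hxtend.eventually
      (linear_le_exp (d * log 5) (2 * d + 1) ((1 / 2 : ℝ) ^ d / 8) (D / 2) (by positivity)
        (by positivity)))
    have h2 : ∀ᶠ k in atTop, (4 : ℝ) ≤ (N k : ℝ) ^ d := by
      filter_upwards [hNtend.eventually_ge_atTop 4] with k hk
      calc (4 : ℝ) ≤ N k := by exact_mod_cast hk
        _ = (N k : ℝ) ^ 1 := by ring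
        _ ≤ (N k : ℝ) ^ d := pow_le_pow_right₀ (by exact_mod_cast hN1 k) hd
    filter_upwards [h1, (tendsto_add_atTop_nat 1).eventually hqw,
      (tendsto_add_atTop_nat 1).eventually h2] with k hk1 hk2 hk3
    have hx0 : 0 ≤ x (k + 1) := by linarith [hx1 (k + 1)]
    have hxle : x k ≤ x (k + 1) := hxmono (Nat.le_succ k)
    have h5 : ((4 * N k + 1 : ℕ) : ℝ) ^ d ≤ exp (d * log 5 + d * x (k + 1)) := by
      have : ((4 * N k + 1 : ℕ) : ℝ) ≤ 5 * exp (x (k + 1)) := by
        push_cast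
        have ha := (hNle k).trans (exp_le_exp.2 hxle)
        have hb : (1 : ℝ) ≤ exp (x (k + 1)) := one_le_exp hx0
        linarith
      calc ((4 * N k + 1 : ℕ) : ℝ) ^ d ≤ (5 * exp (x (k + 1))) ^ d :=
            pow_le_pow_left₀ (by positivity) this d
        _ = exp (d * log 5 + d * x (k + 1)) := by
            rw [← mul_add, exp_nat_mul, exp_add, exp_log (by norm_num)]
    have h6 : (N (k + 1) : ℝ) ^ d ≤ exp (d * x (k + 1)) := by
      rw [exp_nat_mul]
      exact pow_le_pow_left₀ (by positivity) (hNle _) d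
    have h7 : (1 / 2 : ℝ) ^ d / 8 * exp (D / 2 * x (k + 1)) ≤
        ((N (k + 1) : ℝ) ^ d - 2) * (q (w (k + 1)) * cdf μ (δ k) ^ 2 / 4) := by
      have ha : (1 / 2 : ℝ) ^ d * exp (d * x (k + 1)) / 2 ≤ (N (k + 1) : ℝ) ^ d - 2 := by
        have := hNd (k + 1)
        linarith
      have hb : exp (-(D / 4 * x (k + 1))) ≤ cdf μ (δ k) := by
        refine le_trans (exp_le_exp.2 ?_) (hFδ k)
        apply neg_le_neg
        apply mul_le_mul_of_nonneg_left hxle hc3.le
      have hc : exp (-(D / 4 * x (k + 1))) ^ 2 ≤ cdf μ (δ k) ^ 2 :=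
        pow_le_pow_left₀ (exp_pos _).le hb 2
      have hdd : exp (-(s * β' * x (k + 1))) * exp (-(D / 4 * x (k + 1))) ^ 2 / 4 ≤
          q (w (k + 1)) * cdf μ (δ k) ^ 2 / 4 := by
        apply div_le_div_of_nonneg_right _ (by norm_num)
        exact mul_le_mul hk2 hc (by positivity) (le_trans (exp_pos _).le hk2)
      calc (1 / 2 : ℝ) ^ d / 8 * exp (D / 2 * x (k + 1))
          = ((1 / 2 : ℝ) ^ d * exp (d * x (k + 1)) / 2) *
            (exp (-(s * β' * x (k + 1))) * exp (-(D / 4 * x (k + 1))) ^ 2 / 4) := by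
            have : exp (D / 2 * x (k + 1)) = exp (d * x (k + 1)) *
              (exp (-(s * β' * x (k + 1))) * exp (-(D / 4 * x (k + 1))) ^ 2) := by
              rw [← exp_nat_mul, ← exp_add, ← exp_add, hD]
              congr 1
              push_cast
              ring
            rw [this]
            ring
        _ ≤ _ := mul_le_mul ha hdd (by positivity) (by linarith)
    calc ((4 * N k + 1 : ℕ) : ℝ) ^ d * (N (k + 1) : ℝ) ^ d *
        exp (-(((N (k + 1) : ℝ) ^ d - 2) * (q (w (k + 1)) * cdf μ (δ k) ^ 2 / 4)))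
        ≤ exp (d * log 5 + d * x (k + 1)) * exp (d * x (k + 1)) *
          exp (-((1 / 2 : ℝ) ^ d / 8 * exp (D / 2 * x (k + 1)))) := by
          apply mul_le_mul (mul_le_mul h5 h6 (by positivity) (exp_pos _).le)
            (exp_le_exp.2 (neg_le_neg h7)) (exp_pos _).le (by positivity)
      _ = exp (d * log 5 + d * x (k + 1) + d * x (k + 1) +
          -((1 / 2 : ℝ) ^ d / 8 * exp (D / 2 * x (k + 1)))) := by
          rw [← exp_add, ← exp_add]
      _ ≤ exp (-ρ ^ (k + 1)) := by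
          apply exp_le_exp.2
          have : ρ ^ (k + 1) = x (k + 1) := rfl
          rw [this]
          linarith
  obtain ⟨k0, hk0⟩ := hconn.exists_forall_of_atTop
  refine ⟨⟨fun k => N (k + k0), fun k => w (k + k0), fun k => δ (k + k0), fun k => hN1 _,
    fun a b hab => hNmono (by omega), hNtend.comp (tendsto_add_atTop_nat k0), fun k => hw1 _,
    fun a b hab => hwmono (by omega), fun k => ?_, fun k => hδ0 _,
    (summable_nat_add_iff k0).2 hδsum, ?_, ?_⟩⟩
  · have := hk0 (k + k0) (by omega)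
    have e : k + 1 + k0 = k + k0 + 1 := by omega
    rw [e]
    exact this
  · have hsum : Summable (fun k => ((4 * N k + 1 : ℕ) : ℝ) ^ d * (N (k + 1) : ℝ) ^ d *
        exp (-(((N (k + 1) : ℝ) ^ d - 2) * (q (w (k + 1)) * cdf μ (δ k) ^ 2 / 4)))) := by
      refine Summable.of_norm_bounded_eventually_nat
        ((summable_nat_add_iff 1).2 (summable_exp_neg_pow hρ1)) ?_
      filter_upwards [hbad] with k hk
      rw [Real.norm_of_nonneg (by positivity)]
      exact hk
    have h2 := (summable_nat_add_iff k0).2 hsum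
    refine h2.congr (fun k => ?_)
    have e : k + 1 + k0 = k + k0 + 1 := by omega
    simp only [e]
  · have hsum : Summable (fun k => exp (-((N k : ℝ) ^ d * q (w k)))) := by
      refine Summable.of_norm_bounded_eventually_nat (summable_exp_neg_pow hρ1) ?_
      filter_upwards [hempty] with k hk
      rw [Real.norm_of_nonneg (exp_pos _).le]
      exact hk
    exact (summable_nat_add_iff k0).2 hsum

end Pool.Agent.Helper3.SFP
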