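import Pool.Agent.Helper3.SFP.FP
import Pool.Agent.Helper3.SFP.Indep
import Pool.Agent.Helper3.SFP.Scales

namespace Pool.Agent.Helper3.SFP
open Filter MeasureTheory Set ProbabilityTheory
open scoped Topology ENNReal

/-- the index type of all the variables -/
abbrev Idx (V : Type*) := V ⊕ (Sym2 V ⊕ Sym2 V)

/-- coordinates: vertices in `C`, edges with both ends in `D` -/
def idxIn {V : Type*} (C D : Set V) : Set (Idx V) :=
  {i | match i with
    | Sum.inl z => z ∈ C
    | Sum.inr (Sum.inl e) => ∀ u ∈ e, u ∈ D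
    | Sum.inr (Sum.inr e) => ∀ u ∈ e, u ∈ D}

/-- coordinates: vertices in `C`, edges with at least one end in `D` -/
def idxMeet {V : Type*} (C D : Set V) : Set (Idx V) :=
  {i | match i with
    | Sum.inl z => z ∈ C
    | Sum.inr (Sum.inl e) => ∃ u ∈ e, u ∈ D
    | Sum.inr (Sum.inr e) => ∃ u ∈ e, u ∈ D}

variable {V Ω : Type*} {mΩ : MeasurableSpace Ω}

/-- the family of all the variables -/
abbrev coords (W : V → Ω → ℝ) (U L : Sym2 V → Ω → ℝ) : Idx V → Ω → ℝ :=
  Sum.elim W (Sum.elim U L)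

theorem disjoint_idx {C D C' D' : Set V} (h1 : Disjoint C C') (h2 : Disjoint D D') :
    Disjoint (idxMeet C D) (idxIn C' D') := by
  rw [Set.disjoint_left]
  rintro (z | e | e) h h'
  · exact Set.disjoint_left.1 h1 h h'
  · obtain ⟨u, hu, hu'⟩ := h
    exact Set.disjoint_left.1 h2 hu' (h' u hu)
  · obtain ⟨u, hu, hu'⟩ := h
    exact Set.disjoint_left.1 h2 hu' (h' u hu)

/-- the event that hub `z` of the set `Z` is joined to each hub of the set `Y` by a cheap path of
length two, for all `z`. -/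
def goodAt (Z Y : Finset V) (w w' δ : ℝ) (W : V → Ω → ℝ) (U L : Sym2 V → Ω → ℝ) (ω : Ω) : Prop :=
  ∀ z ∈ Z, ∀ z' ∈ Y, z ≠ z' → w ≤ W z ω → w' ≤ W z' ω → ∃ y ∈ Y, y ≠ z ∧ y ≠ z' ∧
    w' ≤ W y ω ∧ U s(z, y) ω < 1 / 2 ∧ U s(y, z') ω < 1 / 2 ∧ L s(z, y) ω ≤ δ ∧ L s(y, z') ω ≤ δ

section meas
variable {W : V → Ω → ℝ} {U L : Sym2 V → Ω → ℝ}

theorem measurable_W_sig {S : Set (Idx V)} {z : V} (h : Sum.inl z ∈ S) :
    Measurable[sig (coords W U L) S] (W z) :=
  measurable_coord (X := coords W U L) h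

theorem measurable_U_sig {S : Set (Idx V)} {e : Sym2 V} (h : Sum.inr (Sum.inl e) ∈ S) :
    Measurable[sig (coords W U L) S] (U e) :=
  measurable_coord (X := coords W U L) h

theorem measurable_L_sig {S : Set (Idx V)} {e : Sym2 V} (h : Sum.inr (Sum.inr e) ∈ S) :
    Measurable[sig (coords W U L) S] (L e) :=
  measurable_coord (X := coords W U L) h

theorem measurableSet_goodAt {Z Y : Finset V} {w w' δ : ℝ} {C D : Set V}
    (hZC : ∀ z ∈ Z, z ∈ C) (hYC : ∀ z ∈ Y, z ∈ C) (hZD : ∀ z ∈ Z, z ∈ D) (hYD : ∀ z ∈ Y, z ∈ D) :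
    MeasurableSet[sig (coords W U L) (idxIn C D)] {ω | goodAt Z Y w w' δ W U L ω} := by
  have e : {ω | goodAt Z Y w w' δ W U L ω} = ⋂ z ∈ Z, ⋂ z' ∈ Y, ⋂ _ : z ≠ z',
      ({ω | w ≤ W z ω}ᶜ ∪ ({ω | w' ≤ W z' ω}ᶜ ∪ ⋃ y ∈ Y, ⋃ _ : y ≠ z, ⋃ _ : y ≠ z',
        ({ω | w' ≤ W y ω} ∩ ({ω | U s(z, y) ω < 1 / 2} ∩ ({ω | U s(y, z') ω < 1 / 2} ∩
          ({ω | L s(z, y) ω ≤ δ} ∩ {ω | L s(y, z') ω ≤ δ})))))) := by
    ext ω
    simp only [goodAt, Set.mem_ofPred_eq, mem_iInter, mem_union, mem_compl_iff, mem_iUnion, mem_inter_iff,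
      exists_prop]
    constructor
    · intro h z hz z' hz' hne
      by_cases h1 : w ≤ W z ω
      · by_cases h2 : w' ≤ W z' ω
        · exact Or.inr (Or.inr (h z hz z' hz' hne h1 h2))
        · exact Or.inr (Or.inl h2)
      · exact Or.inl h1
    · intro h z hz z' hz' hne h1 h2
      rcases h z hz z' hz' hne with h | h | h
      · exact absurd h1 h
      · exact absurd h2 h
      · exact h
  rw [e]
  have hedge : ∀ a b : V, a ∈ D → b ∈ D → ∀ u ∈ s(a, b), u ∈ D := by
    intro a b ha hb u hu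
    rcases Sym2.mem_iff.1 hu with rfl | rfl
    · exact ha
    · exact hb
  refine Finset.measurableSet_biInter _ (fun z hz => Finset.measurableSet_biInter _
    (fun z' hz' => MeasurableSet.iInter (fun _ => ?_)))
  refine MeasurableSet.union (MeasurableSet.compl ?_) (MeasurableSet.union
    (MeasurableSet.compl ?_) ?_)
  · exact measurableSet_le measurable_const (measurable_W_sig (hZC z hz))
  · exact measurableSet_le measurable_const (measurable_W_sig (hYC z' hz'))
  · refine Finset.measurableSet_biUnion _ (fun y hy => MeasurableSet.iUnion (fun _ =>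
      MeasurableSet.iUnion (fun _ => ?_)))
    refine MeasurableSet.inter ?_ (MeasurableSet.inter ?_ (MeasurableSet.inter ?_
      (MeasurableSet.inter ?_ ?_)))
    · exact measurableSet_le measurable_const (measurable_W_sig (hYC y hy))
    · exact measurableSet_lt (measurable_U_sig (hedge _ _ (hZD z hz) (hYD y hy)))
        measurable_const
    · exact measurableSet_lt (measurable_U_sig (hedge _ _ (hYD y hy) (hYD z' hz')))
        measurable_const
    · exact measurableSet_le (measurable_L_sig (hedge _ _ (hZD z hz) (hYD y hy)))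
        measurable_const
    · exact measurableSet_le (measurable_L_sig (hedge _ _ (hYD y hy) (hYD z' hz')))
        measurable_const
end meas

end Pool.Agent.Helper3.SFP
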