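import Pool.Agent.Helper3.SFP.Chain

namespace Pool.Agent.Helper3.SFP
open Filter MeasureTheory Set ProbabilityTheory
open scoped Topology ENNReal

variable {d : ℕ} {α lam : ℝ} {Ω : Type*} {mΩ : MeasurableSpace Ω} {P : Measure Ω}
  [IsProbabilityMeasure P]
  {W : (Fin d → ℤ) → Ω → ℝ} {U L : Sym2 (Fin d → ℤ) → Ω → ℝ} {μW μL : Measure ℝ}

/-- the hub system of a half-space -/
noncomputable def halfSys (n : ℕ → ℕ) (hn : Monotone n) (v : Fin d → ℤ) (σ : ℤˣ) :
    HubSys d n where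
  Z k := cube v σ (n k)
  Y k := cube v σ (n k)
  sub _ := Finset.Subset.refl _
  near k z hz y hy i := by
    have h1 := abs_of_mem_cube hz i
    have h2 := abs_of_mem_cube hy i
    have h3 : (n k : ℤ) ≤ n (k + 1) := by exact_mod_cast hn (Nat.le_succ k)
    have h4 : (0 : ℤ) ≤ n (k + 1) := by positivity
    rw [abs_le] at h1 h2 ⊢
    constructor <;> linarith [h1.1, h1.2, h2.1, h2.2]
  nearY k z hz y hy i := by
    have h1 := abs_of_mem_cube hz i
    have h2 := abs_of_mem_cube hy i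
    have h4 : (0 : ℤ) ≤ n k := by positivity
    rw [abs_le] at h1 h2 ⊢
    constructor <;> linarith [h1.1, h1.2, h2.1, h2.2]

/-- the hub system of the whole space -/
noncomputable def fullSys (d : ℕ) (n : ℕ → ℕ) (hn : Monotone n) : HubSys d n where
  Z k := bigBox d (n k)
  Y k := cube 0 1 (n k)
  sub k y hy := by
    rw [mem_bigBox]
    intro i
    have h1 := abs_of_mem_cube hy i
    have h4 : (0 : ℤ) ≤ n k := by positivity
    simp only [Pi.zero_apply, sub_zero] at h1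
    linarith
  near k z hz y hy i := by
    have h1 := mem_bigBox.1 hz i
    have h2 := abs_of_mem_cube hy i
    have h3 : (n k : ℤ) ≤ n (k + 1) := by exact_mod_cast hn (Nat.le_succ k)
    have h4 : (0 : ℤ) ≤ n (k + 1) := by positivity
    simp only [Pi.zero_apply, sub_zero] at h2
    rw [abs_le] at h1 h2 ⊢
    constructor <;> linarith [h1.1, h1.2, h2.1, h2.2]
  nearY k z hz y hy i := by
    have h1 := abs_of_mem_cube hz i
    have h2 := abs_of_mem_cube hy i
    have h4 : (0 : ℤ) ≤ n k := by positivity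
    simp only [Pi.zero_apply, sub_zero] at h1 h2
    rw [abs_le] at h1 h2 ⊢
    constructor <;> linarith [h1.1, h1.2, h2.1, h2.2]

/-- the standing assumptions on the variables -/
structure Fam (P : Measure Ω) (W : (Fin d → ℤ) → Ω → ℝ) (U L : Sym2 (Fin d → ℤ) → Ω → ℝ)
    (μW μL : Measure ℝ) : Prop where
  hW : ∀ x, Measurable (W x)
  hU : ∀ e, Measurable (U e)
  hL : ∀ e, Measurable (L e)
  hI : iIndepFun (coords W U L) P
  lW : ∀ x, P.map (W x) = μW
  lU : ∀ e, P.map (U e) = (volume : Measure ℝ).restrict (Icc 0 1)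
  lL : ∀ e, P.map (L e) = μL

omit [IsProbabilityMeasure P] in
theorem Fam.hX (hF : Fam P W U L μW μL) : ∀ i, Measurable (coords W U L i) := by
  rintro (i | i | i)
  · exact hF.hW i
  · exact hF.hU i
  · exact hF.hL i

/-- summand bounding the probability of a bad level -/
noncomputable def badTerm (Sc : Scales d α lam (fun t => μW.real (Ici t)) (cdf μL)) (k : ℕ) :
    ℝ≥0∞ :=
  ENNReal.ofReal (((4 * Sc.n k + 1 : ℕ) : ℝ) ^ d * (Sc.n (k + 1) : ℝ) ^ d *
    Real.exp (-(((Sc.n (k + 1) : ℝ) ^ d - 2) *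
      (μW.real (Ici (Sc.w (k + 1))) * cdf μL (Sc.δ k) ^ 2 / 4)))) +
  ENNReal.ofReal (Real.exp (-((Sc.n k : ℝ) ^ d * μW.real (Ici (Sc.w k)))))

theorem tsum_badTerm (Sc : Scales d α lam (fun t => μW.real (Ici t)) (cdf μL)) :
    ∑' k, badTerm Sc k ≠ ∞ := by
  unfold badTerm
  rw [ENNReal.tsum_add]
  apply ENNReal.add_ne_top.2
  constructor
  · rw [← ENNReal.ofReal_tsum_of_nonneg (fun k => by positivity) Sc.bad_sum]
    exact ENNReal.ofReal_ne_top
  · rw [← ENNReal.ofReal_tsum_of_nonneg (fun k => by positivity) Sc.empty_sum]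
    exact ENNReal.ofReal_ne_top

variable (Sc : Scales d α lam (fun t => μW.real (Ici t)) (cdf μL))

/-- level `k` is good -/
def levelOK (H : HubSys d Sc.n) (W : (Fin d → ℤ) → Ω → ℝ) (U L : Sym2 (Fin d → ℤ) → Ω → ℝ)
    (k : ℕ) (ω : Ω) : Prop :=
  goodLevel Sc H W U L k ω ∧ hasHub Sc H W k ω

theorem measure_not_levelOK (hF : Fam P W U L μW μL) (H : HubSys d Sc.n)
    (hZ : ∀ k, (H.Z k).card ≤ (4 * Sc.n k + 1) ^ d) (hY : ∀ k, (H.Y k).card = (Sc.n k) ^ d)
    (k : ℕ) : P {ω | ¬ levelOK Sc H W U L k ω} ≤ badTerm Sc k := by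
  have hpL : IsProbabilityMeasure μL := by
    rw [← hF.lL s(0, 0)]; exact Measure.isProbabilityMeasure_map (hF.hL _).aemeasurable
  have hsub : {ω | ¬ levelOK Sc H W U L k ω} ⊆
      {ω | ¬ goodAt (H.Z k) (H.Y (k + 1)) (Sc.w k) (Sc.w (k + 1)) (Sc.δ k) W U L ω} ∪
      {ω | ¬ ∃ y ∈ H.Y k, Sc.w k ≤ W y ω} := by
    intro ω hω
    by_cases h : goodAt (H.Z k) (H.Y (k + 1)) (Sc.w k) (Sc.w (k + 1)) (Sc.δ k) W U L ω
    · right
      intro h2
      exact hω ⟨h, h2⟩
    · left; exact h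
  refine (measure_mono hsub).trans ((measure_union_le _ _).trans ?_)
  unfold badTerm
  apply add_le_add
  · refine (measure_not_goodAt hF.hW hF.hU hF.hL hF.hI hF.lW hF.lU hF.lL _ _ _ _ _).trans ?_
    apply ENNReal.ofReal_le_ofReal
    rw [hY (k + 1), cdf_eq_real]
    push_cast
    have h1 : ((H.Z k).card : ℝ) ≤ (4 * (Sc.n k : ℝ) + 1) ^ d := by
      exact_mod_cast hZ k
    apply mul_le_mul_of_nonneg_right _ (Real.exp_pos _).le
    exact mul_le_mul_of_nonneg_right h1 (by positivity)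
  · refine (measure_no_hub hF.hW hF.hU hF.hL hF.hI hF.lW _ _).trans ?_
    rw [hY k]
    push_cast
    exact le_rfl

theorem measure_exists_not_levelOK (hF : Fam P W U L μW μL) (H : HubSys d Sc.n)
    (hZ : ∀ k, (H.Z k).card ≤ (4 * Sc.n k + 1) ^ d) (hY : ∀ k, (H.Y k).card = (Sc.n k) ^ d)
    (K : ℕ) : P {ω | ∀ k, K ≤ k → levelOK Sc H W U L k ω}ᶜ ≤ ∑' k, badTerm Sc (k + K) := by
  have hsub : {ω | ∀ k, K ≤ k → levelOK Sc H W U L k ω}ᶜ ⊆
      ⋃ k, {ω | ¬ levelOK Sc H W U L (k + K) ω} := by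
    intro ω hω
    simp only [mem_compl_iff, Set.mem_ofPred_eq, not_forall] at hω
    obtain ⟨k, hk, hk2⟩ := hω
    rw [mem_iUnion]
    exact ⟨k - K, by rw [Set.mem_ofPred_eq, Nat.sub_add_cancel hk]; exact hk2⟩
  refine (measure_mono hsub).trans ((measure_iUnion_le _).trans ?_)
  exact ENNReal.tsum_le_tsum (fun k => measure_not_levelOK Sc hF H hZ hY (k + K))

theorem ae_eventually_levelOK (hF : Fam P W U L μW μL) (H : HubSys d Sc.n)
    (hZ : ∀ k, (H.Z k).card ≤ (4 * Sc.n k + 1) ^ d) (hY : ∀ k, (H.Y k).card = (Sc.n k) ^ d) :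
    ∀ᵐ ω ∂P, ∀ᶠ k in atTop, levelOK Sc H W U L k ω := by
  have h := ae_eventually_notMem (μ := P) (s := fun k => {ω | ¬ levelOK Sc H W U L k ω})
    (ne_top_of_le_ne_top (tsum_badTerm Sc)
      (ENNReal.tsum_le_tsum (fun k => measure_not_levelOK Sc hF H hZ hY k)))
  filter_upwards [h] with ω hω
  filter_upwards [hω] with k hk
  by_contra hc
  exact hk hc

omit [IsProbabilityMeasure P] in
theorem measurableSet_levelOK (H : HubSys d Sc.n) {C D : Set (Fin d → ℤ)}
    (hC : ∀ k, ∀ z ∈ H.Z k, z ∈ C) (hD : ∀ k, ∀ z ∈ H.Z k, z ∈ D) (k : ℕ) :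
    MeasurableSet[sig (coords W U L) (idxIn C D)] {ω | levelOK Sc H W U L k ω} := by
  have e : {ω | levelOK Sc H W U L k ω} =
      {ω | goodAt (H.Z k) (H.Y (k + 1)) (Sc.w k) (Sc.w (k + 1)) (Sc.δ k) W U L ω} ∩
      ⋃ y ∈ H.Y k, {ω | Sc.w k ≤ W y ω} := by
    ext ω
    simp only [levelOK, goodLevel, hasHub, Set.mem_ofPred_eq, mem_inter_iff, mem_iUnion,
      exists_prop]
  rw [e]
  refine MeasurableSet.inter ?_ ?_
  · exact measurableSet_goodAt (hC k) (fun z hz => hC (k + 1) z (H.sub _ hz)) (hD k)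
      (fun z hz => hD (k + 1) z (H.sub _ hz))
  · refine Finset.measurableSet_biUnion _ (fun y hy => ?_)
    exact measurableSet_le measurable_const (measurable_W_sig (hC k y (H.sub _ hy)))

end Pool.Agent.Helper3.SFP
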