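import Pool.Agent.Helper3.SFP.Hub

namespace Pool.Agent.Helper3.SFP
open Filter MeasureTheory Set ProbabilityTheory
open scoped Topology ENNReal

variable {V Ω : Type*} {mΩ : MeasurableSpace Ω} {P : Measure Ω} [IsProbabilityMeasure P]
  {W : V → Ω → ℝ} {U L : Sym2 V → Ω → ℝ} {μW μL : Measure ℝ}

/-- the event that `y` is a good intermediate hub between `z` and `z'` -/
def midEvent (W : V → Ω → ℝ) (U L : Sym2 V → Ω → ℝ) (w' δ : ℝ) (z z' y : V) : Set Ω :=
  {ω | w' ≤ W y ω ∧ U s(z, y) ω < 1 / 2 ∧ U s(y, z') ω < 1 / 2 ∧ L s(z, y) ω ≤ δ ∧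
    L s(y, z') ω ≤ δ}

/-- coordinates used by `midEvent` -/
def midIdx (z z' y : V) : Set (Idx V) :=
  {Sum.inl y, Sum.inr (Sum.inl s(z, y)), Sum.inr (Sum.inl s(y, z')),
    Sum.inr (Sum.inr s(z, y)), Sum.inr (Sum.inr s(y, z'))}

theorem measurableSet_midEvent (w' δ : ℝ) (z z' y : V) :
    MeasurableSet[sig (coords W U L) (midIdx z z' y)] (midEvent W U L w' δ z z' y) := by
  have e : midEvent W U L w' δ z z' y = {ω | w' ≤ W y ω} ∩ ({ω | U s(z, y) ω < 1 / 2} ∩
      ({ω | U s(y, z') ω < 1 / 2} ∩ ({ω | L s(z, y) ω ≤ δ} ∩ {ω | L s(y, z') ω ≤ δ}))) := rfl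
  rw [e]
  refine MeasurableSet.inter ?_ (MeasurableSet.inter ?_ (MeasurableSet.inter ?_
      (MeasurableSet.inter ?_ ?_)))
  · exact measurableSet_le measurable_const (measurable_W_sig (by simp [midIdx]))
  · exact measurableSet_lt (measurable_U_sig (by simp [midIdx])) measurable_const
  · exact measurableSet_lt (measurable_U_sig (by simp [midIdx])) measurable_const
  · exact measurableSet_le (measurable_L_sig (by simp [midIdx])) measurable_const
  · exact measurableSet_le (measurable_L_sig (by simp [midIdx])) measurable_const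

theorem disjoint_midIdx {z z' y y' : V} (hzz : z ≠ z') (hyz : y ≠ z) (hyz' : y ≠ z')
    (hy'z : y' ≠ z) (hy'z' : y' ≠ z') (hyy : y ≠ y') :
    Disjoint (midIdx z z' y) (midIdx z z' y') := by
  have h1 : s(z, y) ≠ s(z, y') := by
    rw [Ne, Sym2.eq_iff]; tauto
  have h2 : s(z, y) ≠ s(y', z') := by
    rw [Ne, Sym2.eq_iff]; tauto
  have h3 : s(y, z') ≠ s(z, y') := by
    rw [Ne, Sym2.eq_iff]; tauto
  have h4 : s(y, z') ≠ s(y', z') := by
    rw [Ne, Sym2.eq_iff]; tauto
  rw [Set.disjoint_left]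
  intro i hi hi'
  simp only [midIdx, mem_insert_iff, mem_singleton_iff] at hi hi'
  rcases hi with rfl | rfl | rfl | rfl | rfl
  · simp [hyy] at hi'
  · simp [h1, h2] at hi'
  · simp [h3, h4] at hi'
  · simp [h1, h2] at hi'
  · simp [h3, h4] at hi'

theorem unif_half : (volume : Measure ℝ).restrict (Icc 0 1) (Iio (1 / 2)) = ENNReal.ofReal (1 / 2) := by
  rw [Measure.restrict_apply measurableSet_Iio]
  have : Iio (1 / 2 : ℝ) ∩ Icc 0 1 = Ico 0 (1 / 2) := by
    ext x
    simp only [mem_inter_iff, mem_Iio, mem_Icc, mem_Ico]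
    constructor
    · rintro ⟨h1, h2, h3⟩; exact ⟨h2, h1⟩
    · rintro ⟨h1, h2⟩; exact ⟨h2, h1, by linarith⟩
  rw [this, Real.volume_Ico]
  norm_num

theorem measure_midEvent (hW : ∀ x, Measurable (W x)) (hU : ∀ e, Measurable (U e))
    (hL : ∀ e, Measurable (L e)) (hI : iIndepFun (coords W U L) P)
    (lW : ∀ x, P.map (W x) = μW) (lU : ∀ e, P.map (U e) = (volume : Measure ℝ).restrict (Icc 0 1))
    (lL : ∀ e, P.map (L e) = μL) (w' δ : ℝ) {z z' y : V} (hzz : z ≠ z') (hyz : y ≠ z)
    (hyz' : y ≠ z') :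
    P (midEvent W U L w' δ z z' y) =
      ENNReal.ofReal (μW.real (Ici w') * μL.real (Iic δ) ^ 2 / 4) := by
  classical
  have hpW : IsProbabilityMeasure μW := by
    rw [← lW y]; exact Measure.isProbabilityMeasure_map (hW y).aemeasurable
  have hpL : IsProbabilityMeasure μL := by
    rw [← lL s(y, y)]; exact Measure.isProbabilityMeasure_map (hL _).aemeasurable
  have h1 : s(z, y) ≠ s(y, z') := by
    rw [Ne, Sym2.eq_iff]; tauto
  set S : Finset (Idx V) := {Sum.inl y, Sum.inr (Sum.inl s(z, y)), Sum.inr (Sum.inl s(y, z')),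
    Sum.inr (Sum.inr s(z, y)), Sum.inr (Sum.inr s(y, z'))} with hS
  set A : Idx V → Set ℝ := fun i => match i with
    | Sum.inl _ => Ici w'
    | Sum.inr (Sum.inl _) => Iio (1 / 2)
    | Sum.inr (Sum.inr _) => Iic δ with hA
  have hAm : ∀ i ∈ S, MeasurableSet (A i) := by
    rintro (i | i | i) _
    · exact measurableSet_Ici
    · exact measurableSet_Iio
    · exact measurableSet_Iic
  have h := hI.measure_inter_preimage_eq_mul S hAm
  have e : midEvent W U L w' δ z z' y = ⋂ i ∈ S, coords W U L i ⁻¹' A i := by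
    ext ω
    simp [midEvent, hS, hA]
  rw [e, h]
  rw [hS, Finset.prod_insert (by simp), Finset.prod_insert (by simp [h1]),
    Finset.prod_insert (by simp), Finset.prod_insert (by simp [h1]), Finset.prod_singleton]
  have e1 : P (coords W U L (Sum.inl y) ⁻¹' A (Sum.inl y)) = μW (Ici w') := by
    rw [← lW y, Measure.map_apply (hW y) measurableSet_Ici]
    rfl
  have e2 : ∀ e, P (coords W U L (Sum.inr (Sum.inl e)) ⁻¹' A (Sum.inr (Sum.inl e))) =
      ENNReal.ofReal (1 / 2) := by
    intro e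
    rw [← unif_half, ← lU e, Measure.map_apply (hU e) measurableSet_Iio]
    rfl
  have e3 : ∀ e, P (coords W U L (Sum.inr (Sum.inr e)) ⁻¹' A (Sum.inr (Sum.inr e))) =
      μL (Iic δ) := by
    intro e
    rw [← lL e, Measure.map_apply (hL e) measurableSet_Iic]
    rfl
  rw [e1, e2, e2, e3, e3]
  have f1 : μW (Ici w') = ENNReal.ofReal (μW.real (Ici w')) := by
    rw [ofReal_measureReal]
  have f2 : μL (Iic δ) = ENNReal.ofReal (μL.real (Iic δ)) := by
    rw [ofReal_measureReal]
  rw [f1, f2, ← ENNReal.ofReal_mul (by positivity), ← ENNReal.ofReal_mul (by norm_num),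
    ← ENNReal.ofReal_mul (by norm_num), ← ENNReal.ofReal_mul (by positivity)]
  congr 1
  ring

/-- the probability that the two-step connections between the hubs of `Z` and of `Y` fail -/
theorem measure_not_goodAt (hW : ∀ x, Measurable (W x)) (hU : ∀ e, Measurable (U e))
    (hL : ∀ e, Measurable (L e)) (hI : iIndepFun (coords W U L) P)
    (lW : ∀ x, P.map (W x) = μW) (lU : ∀ e, P.map (U e) = (volume : Measure ℝ).restrict (Icc 0 1))
    (lL : ∀ e, P.map (L e) = μL) (Z Y : Finset V) (w w' δ : ℝ) :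
    P {ω | ¬ goodAt Z Y w w' δ W U L ω} ≤ ENNReal.ofReal ((Z.card : ℝ) * Y.card *
      Real.exp (-(((Y.card : ℝ) - 2) * (μW.real (Ici w') * μL.real (Iic δ) ^ 2 / 4)))) := by
  classical
  set p : ℝ := μW.real (Ici w') * μL.real (Iic δ) ^ 2 / 4 with hp
  have hp0 : 0 ≤ p := by positivity
  have hX : ∀ i, Measurable (coords W U L i) := by
    rintro (i | i | i)
    · exact hW i
    · exact hU i
    · exact hL i
  have hsub : {ω | ¬ goodAt Z Y w w' δ W U L ω} ⊆ ⋃ a ∈ (Z ×ˢ Y).filter (fun a => a.1 ≠ a.2),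
      ⋂ y ∈ Y.filter (fun y => y ≠ a.1 ∧ y ≠ a.2), (midEvent W U L w' δ a.1 a.2 y)ᶜ := by
    intro ω hω
    simp only [goodAt, Set.mem_ofPred_eq, not_forall, not_exists, not_and] at hω
    obtain ⟨z, hz, z', hz', hne, h1, h2, h3⟩ := hω
    simp only [mem_iUnion, mem_iInter, mem_compl_iff]
    refine ⟨(z, z'), by simp [hz, hz', hne], fun y hy hmid => ?_⟩
    rw [Finset.mem_filter] at hy
    obtain ⟨m1, m2, m3, m4, m5⟩ := hmid
    exact h3 y hy.1 hy.2.1 hy.2.2 m1 m2 m3 m4 m5
  refine (measure_mono hsub).trans ((measure_biUnion_finset_le _ _).trans ?_)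
  have hterm : ∀ a ∈ (Z ×ˢ Y).filter (fun a => a.1 ≠ a.2),
      P (⋂ y ∈ Y.filter (fun y => y ≠ a.1 ∧ y ≠ a.2), (midEvent W U L w' δ a.1 a.2 y)ᶜ) ≤
        ENNReal.ofReal (Real.exp (-(((Y.card : ℝ) - 2) * p))) := by
    rintro ⟨z, z'⟩ ha
    rw [Finset.mem_filter, Finset.mem_product] at ha
    obtain ⟨⟨hz, hz'⟩, hne⟩ := ha
    simp only at hz hz' hne ⊢
    rw [indep_biInter hX hI _ (fun y => midIdx z z' y)]
    · have hfac : ∀ y ∈ Y.filter (fun y => y ≠ z ∧ y ≠ z'),
          P (midEvent W U L w' δ z z' y)ᶜ = ENNReal.ofReal (1 - p) := by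
        intro y hy
        rw [Finset.mem_filter] at hy
        have hmeas : MeasurableSet (midEvent W U L w' δ z z' y) :=
          sig_le hX _ _ (measurableSet_midEvent w' δ z z' y)
        rw [prob_compl_eq_one_sub hmeas,
          measure_midEvent hW hU hL hI lW lU lL w' δ hne hy.2.1 hy.2.2,
          ENNReal.ofReal_sub _ hp0, ENNReal.ofReal_one]
      rw [Finset.prod_congr rfl hfac, Finset.prod_const]
      have hcard : (Y.card : ℝ) - 2 ≤ ((Y.filter (fun y => y ≠ z ∧ y ≠ z')).card : ℝ) := by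
        have hsub2 : Y \ {z, z'} ⊆ Y.filter (fun y => y ≠ z ∧ y ≠ z') := by
          intro y hy
          rw [Finset.mem_sdiff] at hy
          rw [Finset.mem_filter]
          refine ⟨hy.1, ?_⟩
          have := hy.2
          simp only [Finset.mem_insert, Finset.mem_singleton, not_or] at this
          exact this
        have h1 := Finset.card_le_card hsub2
        have h2 := Finset.le_card_sdiff ({z, z'} : Finset V) Y
        have h3 : ({z, z'} : Finset V).card ≤ 2 := Finset.card_le_two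
        have h4 : Y.card ≤ (Y.filter (fun y => y ≠ z ∧ y ≠ z')).card + 2 := by omega
        have h5 : (Y.card : ℝ) ≤ (Y.filter (fun y => y ≠ z ∧ y ≠ z')).card + 2 := by
          exact_mod_cast h4
        linarith
      calc ENNReal.ofReal (1 - p) ^ (Y.filter (fun y => y ≠ z ∧ y ≠ z')).card
          ≤ ENNReal.ofReal (Real.exp (-p)) ^ (Y.filter (fun y => y ≠ z ∧ y ≠ z')).card := by
            apply pow_le_pow_left' (ENNReal.ofReal_le_ofReal _)
            have := Real.add_one_le_exp (-p)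
            linarith
        _ = ENNReal.ofReal (Real.exp (-((Y.filter (fun y => y ≠ z ∧ y ≠ z')).card * p))) := by
            rw [← ENNReal.ofReal_pow (Real.exp_pos _).le, ← Real.exp_nat_mul]
            ring_nf
        _ ≤ ENNReal.ofReal (Real.exp (-(((Y.card : ℝ) - 2) * p))) := by
            apply ENNReal.ofReal_le_ofReal
            apply Real.exp_le_exp.2
            apply neg_le_neg
            exact mul_le_mul_of_nonneg_right hcard hp0
    · intro y hy y' hy' hyy
      rw [Finset.mem_filter] at hy hy'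
      exact disjoint_midIdx hne hy.2.1 hy.2.2 hy'.2.1 hy'.2.2 hyy
    · intro y _
      exact (measurableSet_midEvent w' δ z z' y).compl
  refine (Finset.sum_le_sum hterm).trans ?_
  rw [Finset.sum_const, nsmul_eq_mul]
  have hc : (((Z ×ˢ Y).filter (fun a => a.1 ≠ a.2)).card : ℝ) ≤ Z.card * Y.card := by
    have := Finset.card_filter_le (Z ×ˢ Y) (fun a => a.1 ≠ a.2)
    rw [Finset.card_product] at this
    exact_mod_cast this
  rw [← ENNReal.ofReal_natCast, ← ENNReal.ofReal_mul (by positivity)]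
  apply ENNReal.ofReal_le_ofReal
  exact mul_le_mul_of_nonneg_right hc (Real.exp_pos _).le

/-- the probability that a set `Y` contains no vertex of weight `≥ w` -/
theorem measure_no_hub (hW : ∀ x, Measurable (W x)) (hU : ∀ e, Measurable (U e))
    (hL : ∀ e, Measurable (L e)) (hI : iIndepFun (coords W U L) P)
    (lW : ∀ x, P.map (W x) = μW) (Y : Finset V) (w : ℝ) :
    P {ω | ¬ ∃ y ∈ Y, w ≤ W y ω} ≤ ENNReal.ofReal (Real.exp (-((Y.card : ℝ) *
      μW.real (Ici w)))) := by
  classical
  rcases Y.eq_empty_or_nonempty with hY | ⟨y0, _⟩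
  · subst hY
    simpa using prob_le_one
  have hpW : IsProbabilityMeasure μW := by
    rw [← lW y0]; exact Measure.isProbabilityMeasure_map (hW y0).aemeasurable
  have hX : ∀ i, Measurable (coords W U L i) := by
    rintro (i | i | i)
    · exact hW i
    · exact hU i
    · exact hL i
  have e : {ω | ¬ ∃ y ∈ Y, w ≤ W y ω} = ⋂ y ∈ Y, {ω | w ≤ W y ω}ᶜ := by
    ext ω
    simp
  rw [e, indep_biInter hX hI _ (fun y => {Sum.inl y})]
  · have hfac : ∀ y ∈ Y, P {ω | w ≤ W y ω}ᶜ = ENNReal.ofReal (1 - μW.real (Ici w)) := by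
      intro y _
      rw [prob_compl_eq_one_sub (measurableSet_le measurable_const (hW y))]
      have : P {ω | w ≤ W y ω} = μW (Ici w) := by
        rw [← lW y, Measure.map_apply (hW y) measurableSet_Ici]
        rfl
      rw [this, ENNReal.ofReal_sub _ (by positivity), ENNReal.ofReal_one, ofReal_measureReal]
    rw [Finset.prod_congr rfl hfac, Finset.prod_const]
    calc ENNReal.ofReal (1 - μW.real (Ici w)) ^ Y.card
        ≤ ENNReal.ofReal (Real.exp (-μW.real (Ici w))) ^ Y.card := by
          apply pow_le_pow_left' (ENNReal.ofReal_le_ofReal _)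
          have := Real.add_one_le_exp (-μW.real (Ici w))
          linarith
      _ = _ := by
          rw [← ENNReal.ofReal_pow (Real.exp_pos _).le, ← Real.exp_nat_mul]
          ring_nf
  · intro a _ b _ hab
    simpa using hab
  · intro y _
    apply MeasurableSet.compl
    exact measurableSet_le measurable_const (measurable_W_sig (by simp))

end Pool.Agent.Helper3.SFP
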