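import Pool.Agent.Helper3.SFP.Summ

namespace Pool.Agent.Helper3.SFP
open Filter Real MeasureTheory Set ProbabilityTheory
open scoped Topology ENNReal

/-- The generalised inverse `F^(-1)(u) = inf {t : F(t) ≥ u}` of the distribution function `F` of
the probability law `μ` on the real line. -/
noncomputable def genInv (μ : Measure ℝ) (u : ℝ) : ℝ := sInf {t : ℝ | u ≤ cdf μ t}

section
variable {μ : Measure ℝ} [IsProbabilityMeasure μ] (h0 : μ (Iio 0) = 0)
include h0

theorem nonneg_of_le_cdf {u t : ℝ} (hu : 0 < u) (ht : u ≤ cdf μ t) : 0 ≤ t := by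
  by_contra hneg
  push Not at hneg
  have : cdf μ t = 0 := by
    have h1 : μ (Iic t) = 0 := measure_mono_null (fun x hx => lt_of_le_of_lt hx hneg) h0
    rw [cdf_eq_real, measureReal_def, h1, ENNReal.toReal_zero]
  linarith

theorem bddBelow_cdf {u : ℝ} (hu : 0 < u) : BddBelow {t : ℝ | u ≤ cdf μ t} :=
  ⟨0, fun _ ht => nonneg_of_le_cdf h0 hu ht⟩

omit [IsProbabilityMeasure μ] h0 in
theorem nonempty_cdf {u : ℝ} (hu : u < 1) : {t : ℝ | u ≤ cdf μ t}.Nonempty := by
  have := (tendsto_cdf_atTop μ).eventually (lt_mem_nhds hu)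
  obtain ⟨t, ht⟩ := this.exists
  exact ⟨t, ht.le⟩

theorem genInv_nonneg {u : ℝ} (hu : 0 < u) : 0 ≤ genInv μ u :=
  Real.sInf_nonneg (fun _ ht => nonneg_of_le_cdf h0 hu ht)

theorem genInv_mono {u v : ℝ} (hu : 0 < u) (huv : u ≤ v) (hv : v < 1) :
    genInv μ u ≤ genInv μ v :=
  csInf_le_csInf (bddBelow_cdf h0 hu) (nonempty_cdf hv) (fun _ ht => huv.trans ht)

omit [IsProbabilityMeasure μ] h0 in
theorem le_cdf_genInv {u : ℝ} (hu1 : u < 1) : u ≤ cdf μ (genInv μ u) := by
  -- right continuity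
  have hrc : Tendsto (cdf μ) (𝓝[>] (genInv μ u)) (𝓝 (cdf μ (genInv μ u))) :=
    ((cdf μ).right_continuous (genInv μ u)).mono_left (nhdsWithin_mono _ Ioi_subset_Ici_self)
  refine ge_of_tendsto hrc ?_
  filter_upwards [self_mem_nhdsWithin] with t ht
  obtain ⟨s, hs, hst⟩ := exists_lt_of_csInf_lt (nonempty_cdf hu1) (show genInv μ u < t from ht)
  exact le_trans hs (monotone_cdf μ hst.le)

theorem antitone_genInv : Antitone (fun y : ℝ => genInv μ (exp (-exp y))) := by
  intro y z hyz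
  apply genInv_mono h0 (exp_pos _)
  · apply exp_le_exp.2
    have := exp_le_exp.2 hyz
    linarith
  · have := exp_pos y
    rw [← exp_zero]
    apply exp_lt_exp.2
    linarith

omit [IsProbabilityMeasure μ] h0 in
theorem cdf_pos_of_integral (hint : ∫⁻ y in Ioi (0 : ℝ),
    ENNReal.ofReal (genInv μ (exp (-exp y))) < ∞) {ε : ℝ} (hε : 0 < ε) : 0 < cdf μ ε := by
  by_contra hneg
  have h1 : cdf μ ε = 0 := le_antisymm (not_lt.1 hneg) (cdf_nonneg μ ε)
  have h2 : ∀ y : ℝ, ENNReal.ofReal ε ≤ ENNReal.ofReal (genInv μ (exp (-exp y))) := by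
    intro y
    apply ENNReal.ofReal_le_ofReal
    have hlt : exp (-exp y) < 1 := by
      rw [← exp_zero]
      apply exp_lt_exp.2
      have := exp_pos y
      linarith
    apply le_csInf (nonempty_cdf hlt)
    intro t ht
    by_contra hlt2
    push Not at hlt2
    have := monotone_cdf μ hlt2.le
    have h3 : exp (-exp y) ≤ cdf μ t := ht
    have := exp_pos (-exp y)
    linarith
  have h3 : ∫⁻ y in Ioi (0 : ℝ), ENNReal.ofReal ε ≤ ∫⁻ y in Ioi (0 : ℝ),
      ENNReal.ofReal (genInv μ (exp (-exp y))) := lintegral_mono (fun y => h2 y)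
  rw [setLIntegral_const, Real.volume_Ioi, ENNReal.mul_top (by simpa using hε)] at h3
  exact absurd (lt_of_le_of_lt h3 hint) (lt_irrefl _)

/-- The costs `δ_k = F^(-1)(exp (-c ρ^k))` are summable. -/
theorem summable_genInv (hint : ∫⁻ y in Ioi (0 : ℝ),
    ENNReal.ofReal (genInv μ (exp (-exp y))) < ∞) {c ρ : ℝ} (hc : 0 < c) (hρ : 1 < ρ) :
    Summable (fun k : ℕ => genInv μ (exp (-(c * ρ ^ k)))) := by
  have h := summable_arith_of_antitone (antitone_genInv h0)
    (fun y => genInv_nonneg h0 (exp_pos _)) hint (log_pos hρ) (log c)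
  refine h.congr (fun k => ?_)
  congr 3
  rw [exp_add, exp_log hc, mul_comm (log ρ) (k : ℝ), exp_nat_mul, exp_log (by linarith)]
  ring
end

end Pool.Agent.Helper3.SFP
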