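import Pool.Agent.Helper3.SFP.Escape

namespace Pool.Agent.Helper3.SFP
open Filter MeasureTheory Set ProbabilityTheory
open scoped Topology ENNReal

variable {d : ℕ} {α lam : ℝ} {Ω : Type*} {mΩ : MeasurableSpace Ω}
  {W : (Fin d → ℤ) → Ω → ℝ} {U L : Sym2 (Fin d → ℤ) → Ω → ℝ}

theorem measurable_glen {S : Set (Idx (Fin d → ℤ))} {u v : Fin d → ℤ} (h1 : Sum.inl u ∈ S)
    (h2 : Sum.inl v ∈ S) (h3 : Sum.inr (Sum.inl s(u, v)) ∈ S)
    (h4 : Sum.inr (Sum.inr s(u, v)) ∈ S) :
    Measurable[sig (coords W U L) S] (fun ω =>
      glen (sfpGraph α lam (fun z => W z ω) (fun e => U e ω)) (fun e => L e ω) u v) := by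
  classical
  have e : (fun ω => glen (sfpGraph α lam (fun z => W z ω) (fun e => U e ω)) (fun e => L e ω) u v)
      = fun ω => if (sfpGraph α lam (fun z => W z ω) (fun e => U e ω)).Adj u v then
        ENNReal.ofReal (L s(u, v) ω) else ⊤ := by
    funext ω
    rw [glen, iInf_eq_if]
  rw [e]
  apply Measurable.ite
  · have hU := measurable_U_sig (W := W) (U := U) (L := L) h3
    have hWu := measurable_W_sig (W := W) (U := U) (L := L) h1
    have hWv := measurable_W_sig (W := W) (U := U) (L := L) h2
    have hset : MeasurableSet[sig (coords W U L) S]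
        {ω | U s(u, v) ω < 1 - Real.exp (-(lam * W u ω * W v ω / euclid (u - v) ^ α))} := by
      apply measurableSet_lt hU
      apply Measurable.sub measurable_const
      apply Real.measurable_exp.comp
      exact (((hWu.const_mul lam).mul hWv).div_const _).neg
    have e2 : {ω | (sfpGraph α lam (fun z => W z ω) (fun e => U e ω)).Adj u v} =
        {_ω : Ω | u ≠ v} ∩ ({_ω : Ω | euclid (u - v) = 1} ∪
        {ω | U s(u, v) ω < 1 - Real.exp (-(lam * W u ω * W v ω / euclid (u - v) ^ α))}) := by
      ext ω
      rfl
    rw [e2]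
    exact MeasurableSet.inter (MeasurableSet.const _) (MeasurableSet.union
      (MeasurableSet.const _) hset)
  · exact ENNReal.measurable_ofReal.comp (measurable_L_sig (W := W) (U := U) (L := L) h4)
  · exact measurable_const

theorem measurable_stepDist {A C : Set (Fin d → ℤ)} (hAC : A ⊆ C) (x : Fin d → ℤ) (n : ℕ) :
    ∀ v ∈ C, Measurable[sig (coords W U L) (idxMeet C A)] (fun ω =>
      stepDist (glen (sfpGraph α lam (fun z => W z ω) (fun e => U e ω)) (fun e => L e ω))
        A x n v) := by
  induction n with
  | zero =>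
    intro v _
    simp only [stepDist]
    exact measurable_const
  | succ n ih =>
    intro v hv
    simp only [stepDist]
    apply Measurable.min (ih v hv)
    apply Measurable.iInf
    intro w
    by_cases hw : w ∈ A
    · simp only [hw, iInf_pos]
      apply Measurable.add (ih w (hAC hw))
      apply measurable_glen (hAC hw) hv
      · exact ⟨w, by simp, hw⟩
      · exact ⟨w, by simp, hw⟩
    · simp only [hw, iInf_neg, not_false_eq_true]
      exact measurable_const

theorem measurable_dist' {A C : Set (Fin d → ℤ)} (hAC : A ⊆ C) (x : Fin d → ℤ) {v : Fin d → ℤ}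
    (hv : v ∈ C) :
    Measurable[sig (coords W U L) (idxMeet C A)] (fun ω => dist' α lam W U L A ω x v) := by
  unfold dist' rd
  exact Measurable.iInf (fun n => measurable_stepDist hAC x n v hv)

/-- the box `{-R, …, R}^d` -/
def box (d R : ℕ) : Set (Fin d → ℤ) := {z | ∀ i, |z i| ≤ R}

theorem box_mono {R R' : ℕ} (h : R ≤ R') : box d R ⊆ box d R' := by
  intro z hz i
  have h2 : (R : ℤ) ≤ R' := by exact_mod_cast h
  exact (hz i).trans h2

theorem exists_mem_box (z : Fin d → ℤ) : ∃ R, z ∈ box d R := by
  refine ⟨∑ i, (z i).natAbs, fun i => ?_⟩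
  have h := Finset.single_le_sum (f := fun i => (z i).natAbs) (fun i _ => Nat.zero_le _)
    (Finset.mem_univ i)
  have h2 : ((z i).natAbs : ℤ) ≤ ((∑ i, (z i).natAbs : ℕ) : ℤ) := by exact_mod_cast h
  rwa [Int.natCast_natAbs] at h2

/-- the filtration of the boxes -/
def boxFil (hX : ∀ i, Measurable (coords W U L i)) : Filtration ℕ mΩ where
  seq n := sig (coords W U L) (idxIn (box d n) (box d n))
  mono' := by
    intro a b hab
    apply sig_mono
    rintro (z | e | e) h
    · exact box_mono hab h
    · exact fun u hu => box_mono hab (h u hu)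
    · exact fun u hu => box_mono hab (h u hu)
  le' n := sig_le hX _

theorem sig_univ_le (hX : ∀ i, Measurable (coords W U L i)) :
    sig (coords W U L) univ ≤ ⨆ n, boxFil (d := d) hX n := by
  apply iSup₂_le
  intro i _
  obtain ⟨n, hn⟩ : ∃ n, i ∈ idxIn (box d n) (box d n) := by
    rcases i with z | e | e
    · exact exists_mem_box z
    · induction e using Sym2.ind with
      | _ a b =>
        obtain ⟨R1, h1⟩ := exists_mem_box a
        obtain ⟨R2, h2⟩ := exists_mem_box b
        refine ⟨max R1 R2, fun u hu => ?_⟩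
        rcases Sym2.mem_iff.1 hu with h | h
        · rw [h]; exact box_mono (le_max_left _ _) h1
        · rw [h]; exact box_mono (le_max_right _ _) h2
    · induction e using Sym2.ind with
      | _ a b =>
        obtain ⟨R1, h1⟩ := exists_mem_box a
        obtain ⟨R2, h2⟩ := exists_mem_box b
        refine ⟨max R1 R2, fun u hu => ?_⟩
        rcases Sym2.mem_iff.1 hu with h | h
        · rw [h]; exact box_mono (le_max_left _ _) h1
        · rw [h]; exact box_mono (le_max_right _ _) h2
  refine le_trans ?_ (le_iSup (fun n => boxFil (d := d) hX n) n)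
  exact le_iSup₂ (f := fun i (_ : i ∈ idxIn (box d n) (box d n)) =>
    MeasurableSpace.comap (coords W U L i) inferInstance) i hn

end Pool.Agent.Helper3.SFP
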