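import Pool.Agent.Helper3.SFP.Meas

namespace Pool.Agent.Helper3.SFP
open Filter MeasureTheory Set ProbabilityTheory
open scoped Topology ENNReal

variable {d : ℕ} {α lam : ℝ} {Ω : Type*} {mΩ : MeasurableSpace Ω} {P : Measure Ω}
  [IsProbabilityMeasure P]
  {W : (Fin d → ℤ) → Ω → ℝ} {U L : Sym2 (Fin d → ℤ) → Ω → ℝ} {μW μL : Measure ℝ}

variable (Sc : Scales d α lam (fun t => μW.real (Ici t)) (cdf μL))

/-- `x` is joined within time `< t` to the vertex `v` by a path inside the box, up to its last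
edge -/
def exitEvent (α lam : ℝ) (W : (Fin d → ℤ) → Ω → ℝ) (U L : Sym2 (Fin d → ℤ) → Ω → ℝ) (R : ℕ)
    (x : Fin d → ℤ) (t : ℝ≥0∞) (v : Fin d → ℤ) : Set Ω :=
  {ω | dist' α lam W U L (box d R) ω x v < t}

theorem measurableSet_exitEvent {R : ℕ} {x : Fin d → ℤ} {t : ℝ≥0∞} {v : Fin d → ℤ}
    {C : Set (Fin d → ℤ)} (hC : box d R ⊆ C) (hv : v ∈ C) :
    MeasurableSet[sig (coords W U L) (idxMeet C (box d R))] (exitEvent α lam W U L R x t v) :=
  measurableSet_lt (measurable_dist' hC x hv) measurable_const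

/-- exploring the outside of the box layer by layer in the direction `(σ, i)` -/
theorem directional (hF : Fam P W U L μW μL) {R : ℕ} {x : Fin d → ℤ}
    {t ε' : ℝ≥0∞} {c : ℝ≥0∞} (hW1 : ∀ᵐ ω ∂P, ∀ v, 1 ≤ W v ω)
    (σ : ℤˣ) (i : Fin d)
    (hB : ∀ (v : Fin d → ℤ), ∃ B : Set Ω,
      MeasurableSet[sig (coords W U L)
        (idxIn {z | (σ : ℤ) * v i < (σ : ℤ) * z i} {z | (σ : ℤ) * v i ≤ (σ : ℤ) * z i})] B ∧
      c ≤ P B ∧ ∀ ω ∈ B, 1 ≤ W v ω → ReachTo Sc W U L ω v ε')
    {A : Set Ω} (hA : MeasurableSet[sig (coords W U L) (idxIn (box d R) (box d R))] A) :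
    c * P (A ∩ ⋃ v ∈ {v : Fin d → ℤ | (R : ℤ) < σ * v i}, exitEvent α lam W U L R x t v) ≤
      P (A ∩ {ω | ReachTo Sc W U L ω x (t + ε')}) := by
  classical
  set Q : Set (Fin d → ℤ) := {v | (R : ℤ) < σ * v i} with hQ
  obtain ⟨code, hcode⟩ := exists_injective_nat (Fin d → ℤ)
  -- the order of exploration
  let before : (Fin d → ℤ) → (Fin d → ℤ) → Prop := fun v' v => v' ∈ Q ∧
    ((σ : ℤ) * v' i < σ * v i ∨ ((σ : ℤ) * v' i = σ * v i ∧ code v' < code v))
  let E : (Fin d → ℤ) → Set Ω := fun v => exitEvent α lam W U L R x t v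
  let N : (Fin d → ℤ) → Set Ω := fun v =>
    if v ∈ Q then E v ∩ ⋂ v', ⋂ _ : before v' v, (E v')ᶜ else ∅
  choose B hBm hBc hBr using hB
  have hR0 : ∀ z ∈ box d R, (σ : ℤ) * z i ≤ R := by
    intro z hz
    have := hz i
    rw [abs_le] at this
    rcases Int.units_eq_one_or σ with h | h
    · rw [h]; simpa using this.2
    · rw [h]
      simp only [Units.val_neg, Units.val_one, neg_mul, one_mul]
      linarith [this.1]
  -- measurability of `A ∩ N v`
  have hNm : ∀ v ∈ Q, MeasurableSet[sig (coords W U L)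
      (idxMeet (box d R ∪ {z | (σ : ℤ) * z i ≤ σ * v i}) (box d R))] (A ∩ N v) := by
    intro v hv
    simp only [N, hv, if_true]
    apply MeasurableSet.inter
    · refine sig_mono ?_ _ hA
      rintro (z | e | e) h
      · exact Or.inl h
      · induction e using Sym2.ind with
        | _ a b => exact ⟨a, by simp, h a (by simp)⟩
      · induction e using Sym2.ind with
        | _ a b => exact ⟨a, by simp, h a (by simp)⟩
    · apply MeasurableSet.inter
      · exact measurableSet_exitEvent subset_union_left (Or.inr (le_refl ((σ : ℤ) * v i)))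
      · refine MeasurableSet.iInter (fun v' => MeasurableSet.iInter (fun hv' =>
          MeasurableSet.compl ?_))
        apply measurableSet_exitEvent subset_union_left
        right
        rcases hv'.2 with h | h
        · exact h.le
        · exact h.1.le
  have hNm' : ∀ v, MeasurableSet (A ∩ N v) := by
    intro v
    by_cases hv : v ∈ Q
    · exact sig_le hF.hX _ _ (hNm v hv)
    · simp only [N, hv, if_false, inter_empty]
      exact MeasurableSet.empty
  have hBm' : ∀ v, MeasurableSet (B v) := fun v => sig_le hF.hX _ _ (hBm v)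
  -- independence
  have hind : ∀ v, P ((A ∩ N v) ∩ B v) = P (A ∩ N v) * P (B v) := by
    intro v
    by_cases hv : v ∈ Q
    · apply indep_inter hF.hX hF.hI _ (hNm v hv) (hBm v)
      apply disjoint_idx
      · rw [Set.disjoint_left]
        rintro z (hz | hz) hz'
        · have h1 := hR0 z hz
          have h2 : (R : ℤ) < σ * v i := hv
          have h3 : (σ : ℤ) * v i < σ * z i := hz'
          linarith
        · have h1 : (σ : ℤ) * z i ≤ σ * v i := hz
          have h3 : (σ : ℤ) * v i < σ * z i := hz'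
          linarith
      · rw [Set.disjoint_left]
        intro z hz hz'
        have h1 := hR0 z hz
        have h2 : (R : ℤ) < σ * v i := hv
        have h3 : (σ : ℤ) * v i ≤ σ * z i := hz'
        linarith
    · simp [N, hv]
  -- the sets `N v` are disjoint
  have hdisj : Pairwise (fun v v' => Disjoint (N v) (N v')) := by
    intro v v' hne
    rw [Set.disjoint_left]
    intro ω h h'
    by_cases hv : v ∈ Q
    · by_cases hv' : v' ∈ Q
      · simp only [N, hv, hv', if_true, mem_inter_iff, mem_iInter, mem_compl_iff] at h h'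
        rcases lt_trichotomy ((σ : ℤ) * v i) (σ * v' i) with hlt | heq | hgt
        · exact h'.2 v ⟨hv, Or.inl hlt⟩ h.1
        · rcases lt_trichotomy (code v) (code v') with hlt2 | heq2 | hgt2
          · exact h'.2 v ⟨hv, Or.inr ⟨heq, hlt2⟩⟩ h.1
          · exact hne (hcode heq2)
          · exact h.2 v' ⟨hv', Or.inr ⟨heq.symm, hgt2⟩⟩ h'.1
        · exact h.2 v' ⟨hv', Or.inl hgt⟩ h'.1
      · simp [N, hv'] at h'
    · simp [N, hv] at h
  -- they cover
  have hcov : (⋃ v ∈ Q, E v) ⊆ ⋃ v, N v := by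
    intro ω hω
    obtain ⟨v, hv, hvE⟩ := mem_iUnion₂.1 hω
    -- lexicographic minimum
    have hex : ∃ m : ℕ, ∃ v ∈ Q, ω ∈ E v ∧ ((σ : ℤ) * v i - R).toNat = m :=
      ⟨_, v, hv, hvE, rfl⟩
    obtain ⟨v1, hv1, hv1E, hv1m⟩ := Nat.find_spec hex
    have hex2 : ∃ m : ℕ, ∃ v ∈ Q, ω ∈ E v ∧ ((σ : ℤ) * v i - R).toNat = Nat.find hex ∧
        code v = m := ⟨_, v1, hv1, hv1E, hv1m, rfl⟩
    obtain ⟨v2, hv2, hv2E, hv2m, hv2c⟩ := Nat.find_spec hex2
    refine mem_iUnion.2 ⟨v2, ?_⟩
    simp only [N, hv2, if_true, mem_inter_iff, mem_iInter, mem_compl_iff]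
    refine ⟨hv2E, fun v' hv' hv'E => ?_⟩
    have hv'Q : (R : ℤ) < σ * v' i := hv'.1
    have hv2Q : (R : ℤ) < σ * v2 i := hv2
    rcases hv'.2 with h | ⟨h1, h2⟩
    · have hlt : ((σ : ℤ) * v' i - R).toNat < Nat.find hex := by
        rw [← hv2m]; omega
      exact Nat.find_min hex hlt ⟨v', hv'.1, hv'E, rfl⟩
    · have hlt : code v' < Nat.find hex2 := by rw [← hv2c]; exact h2
      refine Nat.find_min hex2 hlt ⟨v', hv'.1, hv'E, ?_, rfl⟩
      rw [h1]; exact hv2m
  -- on `N v ∩ B v`, `x` reaches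
  have hreach : ∀ᵐ ω ∂P, ω ∈ (⋃ v, (A ∩ N v) ∩ B v) →
      ω ∈ A ∩ {ω | ReachTo Sc W U L ω x (t + ε')} := by
    filter_upwards [hW1] with ω hω hmem
    obtain ⟨v, ⟨hωA, hωN⟩, hωB⟩ := mem_iUnion.1 hmem
    refine ⟨hωA, ?_⟩
    have hvQ : v ∈ Q := by
      by_contra hv
      simp [N, hv] at hωN
    simp only [N, hvQ, if_true] at hωN
    have h1 : dist' α lam W U L univ ω x v ≤ t := by
      have h2 : dist' α lam W U L (box d R) ω x v < t := hωN.1
      exact (rd_anti (subset_univ _) x v).trans h2.le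
    intro K
    obtain ⟨k, hk, z, hz, hwz, hdz⟩ := hBr v ω hωB (hω v) K
    exact ⟨k, hk, z, hz, hwz, (rd_triangle x v z).trans (add_le_add h1 hdz)⟩
  calc c * P (A ∩ ⋃ v ∈ Q, E v) ≤ c * P (⋃ v, A ∩ N v) := by
        gcongr
        rw [← inter_iUnion]
        exact inter_subset_inter_right A hcov
    _ ≤ c * ∑' v, P (A ∩ N v) := by
        gcongr
        exact measure_iUnion_le _
    _ = ∑' v, P (A ∩ N v) * c := by rw [ENNReal.tsum_mul_right, mul_comm]
    _ ≤ ∑' v, P ((A ∩ N v) ∩ B v) := by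
        apply ENNReal.tsum_le_tsum
        intro v
        rw [hind v]
        gcongr
        exact hBc v
    _ = P (⋃ v, (A ∩ N v) ∩ B v) := by
        rw [measure_iUnion]
        · intro v v' hne
          exact (hdisj hne).mono (fun ω h => h.1.2) (fun ω h => h.1.2)
        · exact fun v => (hNm' v).inter (hBm' v)
    _ ≤ P (A ∩ {ω | ReachTo Sc W U L ω x (t + ε')}) := measure_mono_ae hreach

end Pool.Agent.Helper3.SFP
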