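import Mathlib

namespace Pool.Agent.Helper3.SFP
open Filter Real MeasureTheory Set
open scoped Topology ENNReal

/-- Integral test: values of a nonincreasing nonnegative integrable function along an arithmetic
progression are summable. -/
theorem summable_arith_of_antitone {f : ℝ → ℝ} (hf : Antitone f) (hnn : ∀ y, 0 ≤ f y)
    (hint : ∫⁻ y in Ioi (0 : ℝ), ENNReal.ofReal (f y) < ∞) {a : ℝ} (ha : 0 < a) (b : ℝ) :
    Summable (fun k : ℕ => f (a * k + b)) := by
  obtain ⟨N, hN⟩ := exists_nat_gt (-b / a)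
  have hN0 : 0 < a * N + b := by
    rw [div_lt_iff₀ ha] at hN
    linarith
  rw [← summable_nat_add_iff (N + 1)]
  have hgint : Antitone (fun x : ℝ => f (a * x + b)) := by
    intro x y hxy
    apply hf
    have := mul_le_mul_of_nonneg_left hxy ha.le
    linarith
  refine summable_of_sum_range_le (c := a⁻¹ * (∫⁻ y in Ioi (0 : ℝ), ENNReal.ofReal (f y)).toReal)
    (fun n => hnn _) (fun n => ?_)
  have h1 := (hgint.antitoneOn (Icc (N : ℝ) (N + n))).sum_le_integral
  have h2 : ∑ i ∈ Finset.range n, f (a * ((i + (N + 1) : ℕ) : ℝ) + b)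
      = ∑ i ∈ Finset.range n, f (a * ((N : ℝ) + ((i + 1 : ℕ) : ℝ)) + b) := by
    apply Finset.sum_congr rfl
    intro i _
    push_cast
    ring_nf
  rw [h2]
  refine h1.trans ?_
  rw [intervalIntegral.integral_comp_mul_add (fun x => f x) ha.ne' b]
  rw [smul_eq_mul]
  apply mul_le_mul_of_nonneg_left _ (by positivity)
  have hle : a * (N : ℝ) + b ≤ a * (N + n) + b := by
    have : (0 : ℝ) ≤ a * n := by positivity
    nlinarith
  rw [intervalIntegral.integral_of_le hle]
  rw [integral_eq_lintegral_of_nonneg_ae (ae_of_all _ hnn)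
    (hf.measurable.aestronglyMeasurable)]
  apply ENNReal.toReal_mono hint.ne
  apply lintegral_mono_set
  intro x hx
  exact lt_of_lt_of_le hN0 hx.1.le

end Pool.Agent.Helper3.SFP
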